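import Pool.Agent.H63.JL.Lio

/-!
# The adversary: the weights times `1 + λ(j)`
-/

set_option autoImplicit false

namespace Pool.Agent.H63.JL

open Finset ArithmeticFunction

/-- the adversary -/
noncomputable def adv (N j : ℕ) : ℝ :=
  if j = 1 then 0 else bw N j * (1 + ((liouville j : ℤ) : ℝ))

private lemma adv_lio (j : ℕ) : |((liouville j : ℤ) : ℝ)| ≤ 1 := by
  rcases Nat.eq_zero_or_pos j with h | h
  · subst h
    simp
  · rw [liouville_apply h.ne']
    push_cast
    rw [abs_pow]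
    simp

theorem adv_nonneg (N j : ℕ) : 0 ≤ adv N j := by
  unfold adv
  split_ifs
  · exact le_rfl
  · refine mul_nonneg (bw_nonneg N j) ?_
    have := (abs_le.1 (adv_lio j)).1
    linarith

theorem adv_le (N j : ℕ) : adv N j ≤ 2 := by
  unfold adv
  split_ifs
  · norm_num
  · have h1 := (abs_le.1 (adv_lio j)).2
    have h2 := (abs_le.1 (adv_lio j)).1
    have h3 := bw_le_one N j
    have h4 := bw_nonneg N j
    calc bw N j * (1 + ((liouville j : ℤ) : ℝ)) ≤ 1 * 2 :=
          mul_le_mul h3 (by linarith) (by linarith) (by norm_num)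
      _ = 2 := by norm_num

/-- the sum over the multiples of `d` -/
noncomputable def AS (N d : ℕ) : ℝ := ∑ j ∈ (Icc 1 N).filter (fun j => d ∣ j), adv N j

theorem adv_sum (N d : ℕ) (hN : 0 < N) (hd : 0 < d) :
    |AS N d - TB N 1 / d| ≤ Real.log N + 4 + 2 * √((N : ℝ) / d) := by
  unfold AS
  have h1 : ∑ j ∈ (Icc 1 N).filter (fun j => d ∣ j), bw N j * (1 + ((liouville j : ℤ) : ℝ)) =
      TB N d + ∑ m ∈ range N, ((liouville (d * (m + 1)) : ℤ) : ℝ) * bw N (d * (m + 1)) := by
    rw [← sum_mult N d hd (fun j => bw N j * (1 + ((liouville j : ℤ) : ℝ))) fun j hj => by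
      rw [bw_zero hN hj.le, zero_mul]]
    unfold TB
    rw [← sum_add_distrib]
    refine sum_congr rfl fun m _ => ?_
    ring
  have h2 : ∑ j ∈ (Icc 1 N).filter (fun j => d ∣ j), bw N j * (1 + ((liouville j : ℤ) : ℝ)) -
      ∑ j ∈ (Icc 1 N).filter (fun j => d ∣ j), adv N j =
      ∑ j ∈ (Icc 1 N).filter (fun j => d ∣ j), if j = 1 then 2 * bw N 1 else 0 := by
    rw [← sum_sub_distrib]
    refine sum_congr rfl fun j _ => ?_
    unfold adv
    split_ifs with h
    · subst h
      rw [liouville_apply_one]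
      push_cast
      ring
    · ring
  have h3 : |∑ j ∈ (Icc 1 N).filter (fun j => d ∣ j), if j = 1 then 2 * bw N 1 else 0| ≤ 2 := by
    rw [Finset.sum_ite_eq']
    have a1 := bw_nonneg N 1
    have a2 := bw_le_one N 1
    split_ifs
    · rw [abs_of_nonneg (by linarith)]
      linarith
    · simp
  have h4 := tb N d hN hd
  have h5 := lio_sum N d hN hd
  have e : ∑ j ∈ (Icc 1 N).filter (fun j => d ∣ j), adv N j - TB N 1 / d =
      (TB N d - TB N 1 / d) + (∑ m ∈ range N, ((liouville (d * (m + 1)) : ℤ) : ℝ) *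
        bw N (d * (m + 1)) - ∑ j ∈ (Icc 1 N).filter (fun j => d ∣ j),
          if j = 1 then 2 * bw N 1 else 0) := by
    rw [← h2, h1]
    ring
  rw [e]
  refine (abs_add_le _ _).trans ?_
  have h6 := abs_sub (∑ m ∈ range N, ((liouville (d * (m + 1)) : ℤ) : ℝ) * bw N (d * (m + 1)))
    (∑ j ∈ (Icc 1 N).filter (fun j => d ∣ j), if j = 1 then 2 * bw N 1 else 0)
  linarith

theorem AS_nonneg (N d : ℕ) : 0 ≤ AS N d := sum_nonneg fun j _ => adv_nonneg N j

theorem AS_le (N d : ℕ) (hd : 0 < d) : AS N d ≤ 2 * N / d := by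
  have hd' : (0 : ℝ) < d := by exact_mod_cast hd
  have h1 : ((Icc 1 N).filter fun j => d ∣ j).card ≤ N / d := by
    have : ((Icc 1 N).filter fun j => d ∣ j) ⊆ (Icc 1 (N / d)).image fun m => d * m := by
      intro j hj
      rw [mem_filter, mem_Icc] at hj
      obtain ⟨⟨h1, h2⟩, c, rfl⟩ := hj
      rw [mem_image]
      refine ⟨c, ?_, rfl⟩
      rw [mem_Icc]
      refine ⟨Nat.pos_of_ne_zero fun h => ?_, ?_⟩
      · subst h
        omega
      · rw [Nat.le_div_iff_mul_le hd, mul_comm]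
        exact h2
    calc _ ≤ ((Icc 1 (N / d)).image fun m => d * m).card := card_le_card this
      _ ≤ (Icc 1 (N / d)).card := card_image_le
      _ = N / d := by simp
  unfold AS
  calc ∑ j ∈ (Icc 1 N).filter (fun j => d ∣ j), adv N j
      ≤ ∑ j ∈ (Icc 1 N).filter (fun j => d ∣ j), (2 : ℝ) := sum_le_sum fun j _ => adv_le N j
    _ = (((Icc 1 N).filter fun j => d ∣ j).card : ℝ) * 2 := by
        rw [sum_const, nsmul_eq_mul]
    _ ≤ ((N / d : ℕ) : ℝ) * 2 := mul_le_mul_of_nonneg_right (by exact_mod_cast h1) (by norm_num)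
    _ ≤ ((N : ℝ) / d) * 2 := mul_le_mul_of_nonneg_right Nat.cast_div_le (by norm_num)
    _ = 2 * N / d := by ring

theorem adv_zero (z n j : ℕ) (hz : 0 < z) (hp : ∀ p : ℕ, p.Prime → p < z → p ∣ n)
    (hj : j ∈ Icc 1 (z ^ 2)) (hc : Nat.gcd j n = 1) : adv (z ^ 2) j = 0 := by
  rw [mem_Icc] at hj
  unfold adv
  split_ifs with h
  · rfl
  · have hm := Nat.minFac_prime h
    have hkm : z ≤ j.minFac := by
      by_contra hlt
      have h1 := hp _ hm (not_le.1 hlt)
      have h2 : j.minFac ∣ Nat.gcd j n := Nat.dvd_gcd (Nat.minFac_dvd j) h1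
      rw [hc] at h2
      exact hm.one_lt.ne' (Nat.dvd_one.1 h2)
    by_cases hpr : j.Prime
    · rw [liouville_apply (by omega), cardFactors_apply_prime hpr]
      push_cast
      ring
    · have h1 := Nat.minFac_sq_le_self hj.1 hpr
      have h2 : z ^ 2 ≤ j := (Nat.pow_le_pow_left hkm 2).trans h1
      rw [bw_zero (by positivity) h2, zero_mul]

/-- products of two primes -/
theorem adv_pq (N p q : ℕ) (hN : 0 < N) (hp : p.Prime) (hq : q.Prime) (h : 4 * (p * q) ≤ N) :
    1 ≤ adv N (p * q) := by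
  have hN' : (0 : ℝ) < N := by exact_mod_cast hN
  have h1 : p * q ≠ 1 := fun h1 => hp.one_lt.ne' (Nat.eq_one_of_mul_eq_one_right h1)
  unfold adv
  rw [if_neg h1, liouville_apply_mul, liouville_apply hp.ne_zero, liouville_apply hq.ne_zero,
    cardFactors_apply_prime hp, cardFactors_apply_prime hq]
  push_cast
  have h2 := @bw_ge N (p * q) hN
  have h3 : ((p * q : ℕ) : ℝ) / N ≤ 1 / 4 := by
    rw [div_le_div_iff₀ hN' (by norm_num)]
    have : ((4 * (p * q) : ℕ) : ℝ) ≤ N := by exact_mod_cast h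
    push_cast at this
    push_cast
    linarith
  nlinarith

end Pool.Agent.H63.JL
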