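import Pool.Agent.H63.JL.Dst

/-!
# Sums of the weights over the multiples of `d`

The sum over the multiples of `d` is `X / d + O(log N)`, `X` the sum of all weights, at least `(N - 1) / 2`.
-/

set_option autoImplicit false

namespace Pool.Agent.H63.JL

open Finset

/-- discrete comparison of a sum over multiples with the full sum -/
theorem comp (f : ℕ → ℝ) (d M : ℕ) :
    |(d : ℝ) * ∑ m ∈ range M, f (d * m + d) - ∑ n ∈ range (d * M), f (n + 1)| ≤
      d * ∑ n ∈ range (d * M), |f (n + 2) - f (n + 1)| := by
  induction M with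
  | zero => simp
  | succ M ih =>
    rw [sum_range_succ, Nat.mul_succ, sum_range_add, sum_range_add, mul_add]
    have h1 : |(d : ℝ) * f (d * M + d) - ∑ x ∈ range d, f (d * M + x + 1)| ≤
        d * ∑ x ∈ range d, |f (d * M + x + 2) - f (d * M + x + 1)| := by
      have h2 : (d : ℝ) * f (d * M + d) - ∑ x ∈ range d, f (d * M + x + 1) =
          ∑ x ∈ range d, (f (d * M + d) - f (d * M + x + 1)) := by
        rw [sum_sub_distrib, sum_const, card_range, nsmul_eq_mul]
      rw [h2]
      refine (abs_sum_le_sum_abs _ _).trans ?_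
      have h3 : ∀ x ∈ range d, |f (d * M + d) - f (d * M + x + 1)| ≤
          ∑ x ∈ range d, |f (d * M + x + 2) - f (d * M + x + 1)| := by
        intro x hx
        rw [mem_range] at hx
        have h4 : f (d * M + d) - f (d * M + x + 1) =
            ∑ y ∈ Ico x (d - 1), (f (d * M + y + 2) - f (d * M + y + 1)) := by
          have := Finset.sum_Ico_sub (fun y => f (d * M + y + 1)) (show x ≤ d - 1 by omega)
          have e : d * M + (d - 1) + 1 = d * M + d := by omega
          simp only [e] at this
          rw [← this]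
          refine sum_congr rfl fun y _ => ?_
          rfl
        rw [h4]
        refine (abs_sum_le_sum_abs _ _).trans ?_
        refine sum_le_sum_of_subset_of_nonneg ?_ fun _ _ _ => abs_nonneg _
        intro y hy
        rw [mem_Ico] at hy
        rw [mem_range]
        omega
      refine (sum_le_sum h3).trans ?_
      rw [sum_const, card_range, nsmul_eq_mul]
    have e : (d : ℝ) * ∑ m ∈ range M, f (d * m + d) + d * f (d * M + d) -
        (∑ n ∈ range (d * M), f (n + 1) + ∑ x ∈ range d, f (d * M + x + 1)) =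
        ((d : ℝ) * ∑ m ∈ range M, f (d * m + d) - ∑ n ∈ range (d * M), f (n + 1)) +
          ((d : ℝ) * f (d * M + d) - ∑ x ∈ range d, f (d * M + x + 1)) := by ring
    rw [e, mul_add]
    exact (abs_add_le _ _).trans (add_le_add ih h1)

/-- the sum over the multiples of `d` -/
noncomputable def TB (N d : ℕ) : ℝ := ∑ m ∈ range N, bw N (d * (m + 1))

theorem var_sum (N K : ℕ) (hN : 0 < N) :
    ∑ n ∈ range K, |bw N (n + 2) - bw N (n + 1)| ≤ Real.log N + 2 := by
  have hN' : (0 : ℝ) < N := by exact_mod_cast hN
  have h1 : ∑ n ∈ range K, |bw N (n + 2) - bw N (n + 1)| ≤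
      ∑ n ∈ range N, |bw N (n + 2) - bw N (n + 1)| := by
    rcases le_total K N with h | h
    · exact sum_le_sum_of_subset_of_nonneg (range_subset_range.2 h) fun _ _ _ => abs_nonneg _
    · refine le_of_eq (sum_subset (range_subset_range.2 h) fun n _ hn => ?_).symm
      rw [mem_range, not_lt] at hn
      rw [bw_zero hN (by omega), bw_zero hN (by omega), sub_self, abs_zero]
  refine h1.trans ?_
  have h2 : ∑ n ∈ range N, |bw N (n + 2) - bw N (n + 1)| ≤
      ∑ n ∈ range N, (1 / ((n : ℝ) + 1) + 1 / N) := by
    refine sum_le_sum fun n _ => ?_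
    have := bw_var N (n + 1) (by omega)
    push_cast at this
    exact this
  refine h2.trans ?_
  rw [sum_add_distrib, sum_const, card_range, nsmul_eq_mul, mul_one_div_cancel hN'.ne']
  have h3 : ∑ n ∈ range N, (1 / ((n : ℝ) + 1)) ≤ 1 + Real.log N := by
    have := harmonic_le_one_add_log N
    unfold harmonic at this
    push_cast at this
    simpa using this
  linarith

theorem tb (N d : ℕ) (hN : 0 < N) (hd : 0 < d) :
    |TB N d - TB N 1 / d| ≤ Real.log N + 2 := by
  have hd' : (0 : ℝ) < d := by exact_mod_cast hd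
  have h1 := comp (bw N) d N
  have h2 := var_sum N (d * N) hN
  have h3 : ∑ m ∈ range N, bw N (d * m + d) = TB N d := by
    unfold TB
    refine sum_congr rfl fun m _ => ?_
    rw [Nat.mul_succ]
  have h4 : ∑ n ∈ range (d * N), bw N (n + 1) = TB N 1 := by
    unfold TB
    have : range N ⊆ range (d * N) := range_subset_range.2 (Nat.le_mul_of_pos_left N hd)
    rw [← sum_subset this fun n _ hn => ?_]
    · refine sum_congr rfl fun m _ => ?_
      rw [one_mul]
    · rw [mem_range, not_lt] at hn
      exact bw_zero hN (by omega)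
  rw [h3, h4] at h1
  have h5 : TB N d - TB N 1 / d = (d * TB N d - TB N 1) / d := by
    field_simp
  rw [h5, abs_div, abs_of_pos hd', div_le_iff₀ hd']
  refine h1.trans ?_
  rw [mul_comm (Real.log N + 2)]
  exact mul_le_mul_of_nonneg_left h2 hd'.le

theorem tb_ge (N : ℕ) (hN : 0 < N) : ((N : ℝ) - 1) / 2 ≤ TB N 1 := by
  have hN' : (0 : ℝ) < N := by exact_mod_cast hN
  have h1 : ∑ m ∈ range N, (1 - ((m : ℝ) + 1) / N) ≤ TB N 1 := by
    unfold TB
    refine sum_le_sum fun m _ => ?_
    have := @bw_ge N (m + 1) hN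
    rw [one_mul]
    push_cast at this
    exact this
  refine le_trans (le_of_eq ?_) h1
  rw [sum_sub_distrib, sum_const, card_range, nsmul_eq_mul, mul_one, ← sum_div, sum_add_distrib,
    sum_const, card_range, nsmul_eq_mul, mul_one]
  have h2 : ∑ i ∈ range N, (i : ℝ) = (N : ℝ) * (N - 1) / 2 := by
    have := Finset.sum_range_id_mul_two N
    have h3 : ((∑ i ∈ range N, i : ℕ) : ℝ) * 2 = (N : ℝ) * (N - 1) := by
      have h4 : (((∑ i ∈ range N, i) * 2 : ℕ) : ℝ) = ((N * (N - 1) : ℕ) : ℝ) := by rw [this]
      push_cast [Nat.cast_sub (show 1 ≤ N by omega)] at h4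
      push_cast
      exact h4
    push_cast at h3
    linarith
  rw [h2]
  field_simp
  ring

end Pool.Agent.H63.JL
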