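import Mathlib

/-!
# Sieve certificates for Jacobsthal's problem

Pointwise sieve arguments that treat the moduli one by one.
-/

set_option autoImplicit false

namespace Pool.Agent.H63.JL

open Finset

/-- what a certificate may use about the indicator function `x` of the multiples of `d` in an interval of `X`
integers: values in `[0, 1]`, at most one away from the expected number on every subinterval, and for `d ≤ D`
also the exact structure of a residue class (period `d`, one element per period) -/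
structure Adm (X D d : ℕ) (x : ℕ → ℝ) : Prop where
  mem : ∀ m, 0 ≤ x m ∧ x m ≤ 1
  near : ∀ M₁ M₂ : ℕ, M₁ ≤ M₂ → M₂ ≤ X → |∑ m ∈ Ico M₁ M₂, x m - ((M₂ : ℝ) - M₁) / d| ≤ 1
  exact : d ≤ D → (∀ m, x (m + d) = x m) ∧ ∑ m ∈ range d, x m = 1

/-- a sieve certificate: position dependent lower bound sieve weights `lam d m`, lower bounds `B d` for the
sums `∑ m, lam d m * x m` over all admissible `x`, and the sum of the `B d` is positive -/
structure SieveCert (n X D : ℕ) (lam : ℕ → ℕ → ℝ) (B : ℕ → ℝ) : Prop where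
  lower : ∀ m < X, ∀ e ∈ n.divisors, ∑ d ∈ e.divisors, lam d m ≤ if e = 1 then 1 else 0
  bound : ∀ d ∈ n.divisors, ∀ x : ℕ → ℝ, Adm X D d x → B d ≤ ∑ m ∈ range X, lam d m * x m
  gain : 0 < ∑ d ∈ n.divisors, B d

/-- the residue class is admissible -/
theorem adm_class (X D d : ℕ) (a : ℤ) (hd : 0 < d) :
    Adm X D d (fun m => if (d : ℤ) ∣ a + m then 1 else 0) := by
  have hd' : (0 : ℝ) < d := by exact_mod_cast hd
  refine ⟨?_, ?_, ?_⟩
  · intro m
    split_ifs <;> norm_num
  · intro M₁ M₂ h12 _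
    have h1 : ((Ico M₁ M₂).filter fun m : ℕ => (d : ℤ) ∣ a + m).card =
        ((Ico (a + M₁) (a + M₂)).filter fun x => (d : ℤ) ∣ x).card := by
      refine card_bij (fun m _ => a + (m : ℤ)) ?_ ?_ ?_
      · intro m hm
        rw [mem_filter, mem_Ico] at hm
        rw [mem_filter, mem_Ico]
        exact ⟨⟨by omega, by omega⟩, hm.2⟩
      · intro m _ m' _ h
        omega
      · intro x hx
        rw [mem_filter, mem_Ico] at hx
        have h3 : ((x - a).toNat : ℤ) = x - a := Int.toNat_of_nonneg (by omega)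
        refine ⟨(x - a).toNat, ?_, ?_⟩
        · rw [mem_filter, mem_Ico]
          refine ⟨by omega, ?_⟩
          rw [h3]
          have e : a + (x - a) = x := by ring
          rw [e]
          exact hx.2
        · rw [h3]
          ring
    have h2 := Int.Ico_filter_dvd_card (a + M₁) (a + M₂) (r := (d : ℤ)) (by exact_mod_cast hd)
    rw [← h1] at h2
    rw [← sum_filter, sum_const, nsmul_eq_mul, mul_one]
    have h3 : ((((Ico M₁ M₂).filter fun m : ℕ => (d : ℤ) ∣ a + m).card : ℤ) : ℝ) =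
        ((max (⌈((a + M₂ : ℤ) : ℚ) / ((d : ℤ) : ℚ)⌉ - ⌈((a + M₁ : ℤ) : ℚ) / ((d : ℤ) : ℚ)⌉) 0 : ℤ) :
          ℝ) := by
      rw [h2]
    set u : ℚ := ((a + M₂ : ℤ) : ℚ) / ((d : ℤ) : ℚ) with hu
    set v : ℚ := ((a + M₁ : ℤ) : ℚ) / ((d : ℤ) : ℚ) with hv
    have h12' : (M₁ : ℚ) ≤ M₂ := by exact_mod_cast h12
    have huv : u - v = ((M₂ : ℚ) - M₁) / d := by
      rw [hu, hv, ← sub_div]
      push_cast
      ring
    have hMd : (0 : ℚ) ≤ ((M₂ : ℚ) - M₁) / d := div_nonneg (by linarith) (Nat.cast_nonneg d)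
    have hle : ⌈v⌉ ≤ ⌈u⌉ := Int.ceil_le_ceil (by linarith)
    rw [max_eq_left (by omega)] at h3
    push_cast at h3
    rw [h3]
    have a1 := Int.le_ceil u
    have a2 := Int.ceil_lt_add_one u
    have b1 := Int.le_ceil v
    have b2 := Int.ceil_lt_add_one v
    have hq : |((⌈u⌉ : ℚ) - ⌈v⌉) - ((M₂ : ℚ) - M₁) / d| ≤ 1 := by
      rw [← huv, abs_le]
      constructor <;> linarith
    have : ((|((⌈u⌉ : ℚ) - ⌈v⌉) - ((M₂ : ℚ) - M₁) / d| : ℚ) : ℝ) ≤ ((1 : ℚ) : ℝ) := by
      exact_mod_cast hq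
    push_cast at this
    exact this
  · intro _
    have hdz : (0 : ℤ) < d := by exact_mod_cast hd
    refine ⟨?_, ?_⟩
    · intro m
      have h : (d : ℤ) ∣ a + ((m + d : ℕ) : ℤ) ↔ (d : ℤ) ∣ a + (m : ℤ) := by
        push_cast
        rw [← add_assoc]
        exact dvd_add_self_right
      simp only [h]
    · have h0 : 0 ≤ (-a) % (d : ℤ) := Int.emod_nonneg _ hdz.ne'
      have h1 : (-a) % (d : ℤ) < d := Int.emod_lt_of_pos _ hdz
      have h2 : (((-a) % (d : ℤ)).toNat : ℤ) = (-a) % (d : ℤ) := Int.toNat_of_nonneg h0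
      have key : ∀ m : ℕ, m < d → ((d : ℤ) ∣ a + m ↔ m = ((-a) % (d : ℤ)).toNat) := by
        intro m hm
        constructor
        · intro h
          have h3 : (d : ℤ) ∣ (m : ℤ) - (-a) := by
            have e : (m : ℤ) - (-a) = a + m := by ring
            rw [e]
            exact h
          have h4 : (-a) % (d : ℤ) = (m : ℤ) % d := (Int.emod_emod_of_dvd _ dvd_rfl ▸
            (Int.emod_eq_emod_iff_emod_sub_eq_zero.2 (Int.emod_eq_zero_of_dvd h3)).symm)
          have h5 : (m : ℤ) % d = m := Int.emod_eq_of_lt (by omega) (by exact_mod_cast hm)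
          omega
        · intro h
          have h3 : (m : ℤ) = (-a) % (d : ℤ) := by rw [h, h2]
          have h4 := Int.emod_add_mul_ediv (-a) (d : ℤ)
          rw [← h3] at h4
          refine ⟨-((-a) / (d : ℤ)), ?_⟩
          linarith
      rw [Finset.sum_congr rfl (g := fun m => if m = ((-a) % (d : ℤ)).toNat then (1 : ℝ) else 0)
        (fun m hm => by
          simp only [key m (mem_range.1 hm)]), Finset.sum_ite_eq', if_pos]
      rw [mem_range]
      omega

/-- a certificate proves that every interval of `X` integers contains one coprime to `n` -/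
theorem sound (n X D : ℕ) (lam : ℕ → ℕ → ℝ) (B : ℕ → ℝ) (hn : 0 < n)
    (h : SieveCert n X D lam B) (a : ℤ) : ∃ m < X, Int.gcd (a + m) n = 1 := by
  by_contra hcon
  push Not at hcon
  have h1 : ∀ m ∈ range X, ∑ d ∈ n.divisors, lam d m * (if (d : ℤ) ∣ a + m then 1 else 0) ≤ 0 := by
    intro m hm
    rw [mem_range] at hm
    have h2 := h.lower m hm (Int.gcd (a + m) n) (Nat.mem_divisors.2
      ⟨by exact_mod_cast Int.gcd_dvd_right (a + m) (n : ℤ), hn.ne'⟩)
    rw [if_neg (hcon m hm)] at h2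
    refine le_trans (le_of_eq ?_) h2
    have e : ∀ d ∈ n.divisors, lam d m * (if (d : ℤ) ∣ a + m then (1 : ℝ) else 0) =
        if (d : ℤ) ∣ a + m then lam d m else 0 := by
      intro d _
      split_ifs <;> ring
    rw [sum_congr rfl e, ← sum_filter]
    refine sum_congr ?_ fun _ _ => rfl
    ext d
    rw [mem_filter, Nat.mem_divisors, Nat.mem_divisors]
    constructor
    · rintro ⟨⟨h3, _⟩, h4⟩
      refine ⟨?_, ?_⟩
      · exact Int.dvd_gcd h4 (by exact_mod_cast h3)
      · intro h0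
        rw [Int.gcd_eq_zero_iff] at h0
        have := h0.2
        omega
    · rintro ⟨h3, _⟩
      have h4 : (d : ℤ) ∣ ((Int.gcd (a + m) n : ℕ) : ℤ) := by exact_mod_cast h3
      refine ⟨⟨?_, hn.ne'⟩, h4.trans (Int.gcd_dvd_left _ _)⟩
      have := h4.trans (Int.gcd_dvd_right (a + m) (n : ℤ))
      exact_mod_cast this
  have h2 : ∑ d ∈ n.divisors, B d ≤
      ∑ d ∈ n.divisors, ∑ m ∈ range X, lam d m * (if (d : ℤ) ∣ a + m then 1 else 0) :=
    sum_le_sum fun d hd => h.bound d hd _ (adm_class X D d a (Nat.pos_of_mem_divisors hd))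
  rw [sum_comm] at h2
  have h3 := sum_nonpos h1
  have h4 := h.gain
  linarith

/-- constants are admissible -/
theorem adm_const (X D d : ℕ) (t : ℝ) (hd : 0 < d) (h0 : 0 ≤ t) (h1 : t ≤ 1)
    (hX : X * |t - 1 / d| ≤ 1) (hD : d ≤ D → t = 1 / d) : Adm X D d (fun _ => t) := by
  have hd' : (0 : ℝ) < d := by exact_mod_cast hd
  refine ⟨fun _ => ⟨h0, h1⟩, ?_, ?_⟩
  · intro M₁ M₂ h12 h2X
    rw [sum_const, Nat.card_Ico, nsmul_eq_mul, Nat.cast_sub h12]
    have h3 : ((M₂ : ℝ) - M₁) * t - ((M₂ : ℝ) - M₁) / d = ((M₂ : ℝ) - M₁) * (t - 1 / d) := by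
      ring
    rw [h3, abs_mul]
    have h4 : (0 : ℝ) ≤ (M₂ : ℝ) - M₁ := by
      have : (M₁ : ℝ) ≤ M₂ := by exact_mod_cast h12
      linarith
    rw [abs_of_nonneg h4]
    have h5 : (M₂ : ℝ) - M₁ ≤ X := by
      have a1 : (M₂ : ℝ) ≤ X := by exact_mod_cast h2X
      have a2 : (0 : ℝ) ≤ M₁ := Nat.cast_nonneg _
      linarith
    exact (mul_le_mul_of_nonneg_right h5 (abs_nonneg _)).trans hX
  · intro hdD
    refine ⟨fun _ => rfl, ?_⟩
    rw [sum_const, card_range, nsmul_eq_mul, hD hdD]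
    field_simp

/-- large moduli, constant on the interval -/
theorem adm_big (X D d : ℕ) (t : ℝ) (hX : 0 < X) (hd : X < d) (h0 : 0 ≤ t) (h1 : X * t ≤ 1) :
    ∃ x : ℕ → ℝ, Adm X D d x ∧ ∀ m < X, x m = t := by
  have hX' : (1 : ℝ) ≤ X := by exact_mod_cast hX
  have hd' : (X : ℝ) + 1 ≤ d := by exact_mod_cast hd
  have ht1 : t ≤ 1 := by nlinarith
  have hp : 0 < (d : ℝ) - X := by linarith
  refine ⟨fun m => if m % d < X then t else (1 - X * t) / (d - X), ⟨?_, ?_, ?_⟩, ?_⟩
  · intro m
    split_ifs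
    · exact ⟨h0, ht1⟩
    · refine ⟨div_nonneg (by linarith) hp.le, ?_⟩
      rw [div_le_one hp]
      have : 0 ≤ X * t := by positivity
      linarith
  · intro M₁ M₂ h12 h2X
    have h3 : ∑ m ∈ Ico M₁ M₂, (if m % d < X then t else (1 - X * t) / (d - X)) =
        ∑ m ∈ Ico M₁ M₂, t := by
      refine sum_congr rfl fun m hm => ?_
      rw [mem_Ico] at hm
      rw [Nat.mod_eq_of_lt (by omega), if_pos (by omega)]
    rw [h3, sum_const, Nat.card_Ico, nsmul_eq_mul, Nat.cast_sub h12]
    have h4 : (0 : ℝ) ≤ (M₂ : ℝ) - M₁ := by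
      have : (M₁ : ℝ) ≤ M₂ := by exact_mod_cast h12
      linarith
    have h5 : (M₂ : ℝ) - M₁ ≤ X := by
      have a1 : (M₂ : ℝ) ≤ X := by exact_mod_cast h2X
      have a2 : (0 : ℝ) ≤ M₁ := Nat.cast_nonneg _
      linarith
    have h6 : ((M₂ : ℝ) - M₁) * t ≤ 1 := (mul_le_mul_of_nonneg_right h5 h0).trans h1
    have h7 : 0 ≤ ((M₂ : ℝ) - M₁) * t := mul_nonneg h4 h0
    have h8 : ((M₂ : ℝ) - M₁) / d ≤ 1 := by
      rw [div_le_one (by linarith)]
      linarith
    have h9 : 0 ≤ ((M₂ : ℝ) - M₁) / d := div_nonneg h4 (by linarith)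
    rw [abs_le]
    constructor <;> linarith
  · intro _
    refine ⟨fun m => ?_, ?_⟩
    · simp only [Nat.add_mod_right]
    · have h3 : ∀ m ∈ range d, (if m % d < X then t else (1 - X * t) / (d - X)) =
          if m < X then t else (1 - X * t) / (d - X) := by
        intro m hm
        rw [mem_range] at hm
        rw [Nat.mod_eq_of_lt hm]
      rw [sum_congr rfl h3, sum_ite, sum_const, sum_const, nsmul_eq_mul, nsmul_eq_mul]
      have c1 : ((range d).filter fun m => m < X).card = X := by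
        have : (range d).filter (fun m => m < X) = range X := by
          ext m
          rw [mem_filter, mem_range, mem_range]
          omega
        rw [this, card_range]
      have c2 : ((range d).filter fun m => ¬ m < X).card = d - X := by
        have h4 := card_filter_add_card_filter_not (s := range d) (fun m => m < X)
        rw [card_range] at h4
        omega
      rw [c1, c2, Nat.cast_sub hd.le]
      field_simp
      ring
  · intro m hm
    simp only
    rw [Nat.mod_eq_of_lt (by omega), if_pos hm]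

/-- no certificate if there is a measure -/
theorem no_cert (n X D : ℕ) (lam : ℕ → ℕ → ℝ) (B t : ℕ → ℝ)
    (ht : ∀ d ∈ n.divisors, ∃ x : ℕ → ℝ, Adm X D d x ∧ ∀ m < X, x m = t d)
    (hf : ∀ f : ℕ → ℝ, (∀ e ∈ n.divisors, ∑ d ∈ e.divisors, f d ≤ if e = 1 then 1 else 0) →
        ∑ d ∈ n.divisors, t d * f d ≤ 0) : ¬ SieveCert n X D lam B := by
  intro h
  have h1 : ∑ d ∈ n.divisors, B d ≤ ∑ d ∈ n.divisors, ∑ m ∈ range X, t d * lam d m := by
    refine sum_le_sum fun d hd => ?_
    obtain ⟨x, hx, hxt⟩ := ht d hd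
    refine (h.bound d hd x hx).trans (le_of_eq ?_)
    refine sum_congr rfl fun m hm => ?_
    rw [hxt m (mem_range.1 hm), mul_comm]
  rw [sum_comm] at h1
  have h2 : ∑ m ∈ range X, ∑ d ∈ n.divisors, t d * lam d m ≤ 0 :=
    sum_nonpos fun m hm => hf (fun d => lam d m) (h.lower m (mem_range.1 hm))
  have h3 := h.gain
  linarith

/-- a certificate has positive length -/
theorem cert_pos (n X D : ℕ) (lam : ℕ → ℕ → ℝ) (B : ℕ → ℝ) (h : SieveCert n X D lam B) :
    0 < X := by
  rcases Nat.eq_zero_or_pos X with h0 | h0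
  · exfalso
    subst h0
    have h1 : ∑ d ∈ n.divisors, B d ≤ 0 := by
      refine sum_nonpos fun d hd => ?_
      have h2 := h.bound d hd _ (adm_class 0 D d 0 (Nat.pos_of_mem_divisors hd))
      simpa using h2
    have := h.gain
    linarith
  · exact h0

end Pool.Agent.H63.JL
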