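import Mathlib

/-!
# The weights `1 - dist(N, 2 n ℤ) / N`

`N - dist(N, 2 n ℤ) = ∑_k u(k n)` with `u(j) = 2 (N - j)_+ - 4 (N - 2 j)_+`, and the total variation
in `n` is at most `N (log N + 2)`.
-/

set_option autoImplicit false

namespace Pool.Agent.H63.JL

open Finset

/-- distance from `N` to the multiples of `q` -/
def dst (N q : ℕ) : ℕ := min (N % q) (q - N % q)

/-- the kernel -/
def uk (N j : ℕ) : ℤ := 2 * ((N - j : ℕ) : ℤ) - 4 * ((N - 2 * j : ℕ) : ℤ)

theorem uk_zero {N j : ℕ} (h : N ≤ j) : uk N j = 0 := by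
  unfold uk
  rw [Nat.sub_eq_zero_of_le h, Nat.sub_eq_zero_of_le (by omega)]
  simp

theorem uk_abs (N j : ℕ) : |uk N j| ≤ 2 * N := by
  unfold uk
  rw [abs_le]
  constructor <;> omega

theorem dst_le (N q : ℕ) (hq : 0 < q) (j : ℕ) : (dst N q : ℤ) ≤ |(N : ℤ) - q * j| := by
  have hN := Nat.div_add_mod N q
  have hr := Nat.mod_lt N hq
  set K := N / q with hK
  set r := N % q with hr'
  have hN' : (N : ℤ) = q * K + r := by exact_mod_cast hN.symm
  have h1 : (dst N q : ℤ) ≤ r := by
    unfold dst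
    exact_mod_cast min_le_left _ _
  have h2 : (dst N q : ℤ) ≤ q - r := by
    have : dst N q ≤ q - r := min_le_right _ _
    omega
  rcases le_or_gt j K with h | h
  · refine le_trans ?_ (le_abs_self _)
    have : (q : ℤ) * j ≤ q * K := by
      exact_mod_cast Nat.mul_le_mul_left q h
    linarith
  · refine le_trans ?_ (neg_le_abs _)
    have : (q : ℤ) * (K + 1) ≤ q * j := by
      exact_mod_cast Nat.mul_le_mul_left q h
    linarith

theorem dst_ex (N q : ℕ) (hq : 0 < q) :
    ∃ j : ℕ, (dst N q : ℤ) = |(N : ℤ) - q * j| ∧ 2 * (q * j) ≤ 2 * N + q := by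
  have hN := Nat.div_add_mod N q
  have hr := Nat.mod_lt N hq
  rcases le_total (N % q) (q - N % q) with h | h
  · refine ⟨N / q, ?_, by omega⟩
    have h1 : dst N q = N % q := min_eq_left h
    have h2 : (N : ℤ) - q * (N / q : ℕ) = (N % q : ℕ) := by
      have : (N : ℤ) = q * (N / q : ℕ) + (N % q : ℕ) := by exact_mod_cast hN.symm
      linarith
    rw [h1, h2, abs_of_nonneg (by positivity)]
  · refine ⟨N / q + 1, ?_, ?_⟩
    · have h1 : dst N q = q - N % q := min_eq_right h
      have h2 : (N : ℤ) - q * ((N / q + 1 : ℕ) : ℤ) = -((q - N % q : ℕ) : ℤ) := by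
        have : (N : ℤ) = q * (N / q : ℕ) + (N % q : ℕ) := by exact_mod_cast hN.symm
        push_cast [Nat.cast_sub hr.le]
        push_cast at this
        linarith
      rw [h1, h2, abs_neg, abs_of_nonneg (by positivity)]
    · have : q * (N / q + 1) = q * (N / q) + q := by ring
      omega

/-- variation -/
theorem dst_var (N n : ℕ) (hn : 0 < n) :
    |(dst N (2 * (n + 1)) : ℤ) - dst N (2 * n)| ≤ N / n + 1 := by
  rw [abs_le]
  have key : ∀ j : ℕ, |(N : ℤ) - (2 * (n + 1) : ℕ) * j| ≤ |(N : ℤ) - (2 * n : ℕ) * j| + 2 * j ∧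
      |(N : ℤ) - (2 * n : ℕ) * j| ≤ |(N : ℤ) - (2 * (n + 1) : ℕ) * j| + 2 * j := by
    intro j
    have e1 : (N : ℤ) - (2 * (n + 1) : ℕ) * j = ((N : ℤ) - (2 * n : ℕ) * j) + (-(2 * j)) := by
      push_cast
      ring
    have e2 : (N : ℤ) - (2 * n : ℕ) * j = ((N : ℤ) - (2 * (n + 1) : ℕ) * j) + 2 * j := by
      push_cast
      ring
    have hj : (0 : ℤ) ≤ 2 * j := by positivity
    constructor
    · rw [e1]
      refine (abs_add_le _ _).trans ?_
      rw [abs_neg, abs_of_nonneg hj]
    · rw [e2]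
      refine (abs_add_le _ _).trans ?_
      rw [abs_of_nonneg hj]
  constructor
  · obtain ⟨j, hj1, hj2⟩ := dst_ex N (2 * (n + 1)) (by omega)
    have h1 := dst_le N (2 * n) (by omega) j
    have h2 := (key j).2
    rw [← hj1] at h2
    have h3 : 2 * j ≤ N / n + 1 := by
      have h4 : (2 * j) * n ≤ N + n := by
        rcases Nat.eq_zero_or_pos j with h | h
        · subst h
          omega
        · nlinarith
      have h5 : 2 * j ≤ (N + n) / n := (Nat.le_div_iff_mul_le hn).2 h4
      rwa [Nat.add_div_right _ hn] at h5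
    have h3' : (2 : ℤ) * j ≤ (N : ℤ) / n + 1 := by exact_mod_cast h3
    linarith
  · obtain ⟨j, hj1, hj2⟩ := dst_ex N (2 * n) (by omega)
    have h1 := dst_le N (2 * (n + 1)) (by omega) j
    have h2 := (key j).1
    rw [← hj1] at h2
    have h3 : 2 * j ≤ N / n + 1 := by
      have h4 : (2 * j) * n ≤ N + n := by nlinarith
      have h5 : 2 * j ≤ (N + n) / n := (Nat.le_div_iff_mul_le hn).2 h4
      rwa [Nat.add_div_right _ hn] at h5
    have h3' : (2 : ℤ) * j ≤ (N : ℤ) / n + 1 := by exact_mod_cast h3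
    linarith

private lemma dst_tri (N q K : ℕ) (h : K * q ≤ N) :
    2 * ∑ k ∈ range K, ((N - (k + 1) * q : ℕ) : ℤ) = K * (2 * N - q * (K + 1)) := by
  induction K with
  | zero => simp
  | succ K ih =>
    have h1 : K * q ≤ N := le_trans (Nat.mul_le_mul_right q (Nat.le_succ K)) h
    rw [sum_range_succ, mul_add, ih h1, Nat.cast_sub h]
    push_cast
    ring

private lemma dst_tri2 (N q M : ℕ) (hq : 0 < q) (h : N / q ≤ M) :
    2 * ∑ k ∈ range M, ((N - (k + 1) * q : ℕ) : ℤ) =
      (N / q : ℕ) * (2 * N - q * ((N / q : ℕ) + 1)) := by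
  induction M, h using Nat.le_induction with
  | base => exact dst_tri N q (N / q) (Nat.div_mul_le_self N q)
  | succ M hM ih =>
    rw [sum_range_succ, mul_add, ih]
    have h1 : N < (M + 1) * q := by
      have := Nat.lt_mul_div_succ N hq
      nlinarith
    rw [Nat.sub_eq_zero_of_le h1.le]
    simp

/-- the identity -/
theorem dst_id (N n : ℕ) (hn : 0 < n) :
    ∑ k ∈ range N, uk N ((k + 1) * n) = (N : ℤ) - dst N (2 * n) := by
  have h1 := dst_tri2 N n N hn (Nat.div_le_self N n)
  have h2 := dst_tri2 N (2 * n) N (by omega) (Nat.div_le_self N (2 * n))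
  have h3 : ∑ k ∈ range N, uk N ((k + 1) * n) =
      2 * ∑ k ∈ range N, ((N - (k + 1) * n : ℕ) : ℤ) -
        2 * (2 * ∑ k ∈ range N, ((N - (k + 1) * (2 * n) : ℕ) : ℤ)) := by
    rw [mul_sum, mul_sum, mul_sum, ← sum_sub_distrib]
    refine sum_congr rfl fun k _ => ?_
    unfold uk
    have : 2 * ((k + 1) * n) = (k + 1) * (2 * n) := by ring
    rw [this]
    ring
  rw [h3, h1, h2]
  have hN := Nat.div_add_mod N (2 * n)
  have hr := Nat.mod_lt N (show 0 < 2 * n by omega)
  set K := N / (2 * n) with hK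
  set r := N % (2 * n) with hr'
  have hN' : (N : ℤ) = 2 * n * K + r := by exact_mod_cast hN.symm
  have hNn : N = 2 * n * K + r := hN.symm
  rcases lt_or_ge r n with h | h
  · have h4 : N / n = 2 * K := by
      refine Nat.div_eq_of_lt_le ?_ ?_
      · rw [hNn]
        have : 2 * K * n = 2 * n * K := by ring
        omega
      · rw [hNn]
        have : (2 * K + 1) * n = 2 * n * K + n := by ring
        omega
    have h5 : dst N (2 * n) = r := by
      unfold dst
      rw [← hr']
      exact min_eq_left (by omega)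
    rw [h4, h5, hN']
    push_cast
    ring
  · have h4 : N / n = 2 * K + 1 := by
      refine Nat.div_eq_of_lt_le ?_ ?_
      · rw [hNn]
        have : (2 * K + 1) * n = 2 * n * K + n := by ring
        omega
      · rw [hNn]
        have : (2 * K + 1 + 1) * n = 2 * n * K + 2 * n := by ring
        omega
    have h5 : (dst N (2 * n) : ℤ) = 2 * n - r := by
      have h6 : dst N (2 * n) = 2 * n - r := by
        unfold dst
        rw [← hr']
        exact min_eq_right (by omega)
      rw [h6]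
      push_cast [Nat.cast_sub hr.le]
      ring
    rw [h4, h5, hN']
    push_cast
    ring

/-- the weights -/
noncomputable def bw (N n : ℕ) : ℝ := 1 - (dst N (2 * n) : ℝ) / N

theorem bw_nonneg (N n : ℕ) : 0 ≤ bw N n := by
  unfold bw
  have h : dst N (2 * n) ≤ N := (min_le_left _ _).trans (Nat.mod_le _ _)
  have h' : (dst N (2 * n) : ℝ) ≤ N := by exact_mod_cast h
  have := div_le_one_of_le₀ h' (Nat.cast_nonneg N)
  linarith

theorem bw_le_one (N n : ℕ) : bw N n ≤ 1 := by
  unfold bw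
  have : (0 : ℝ) ≤ (dst N (2 * n) : ℝ) / N := by positivity
  linarith

theorem bw_zero {N n : ℕ} (hN : 0 < N) (h : N ≤ n) : bw N n = 0 := by
  unfold bw
  have h1 : N % (2 * n) = N := Nat.mod_eq_of_lt (by omega)
  have h2 : dst N (2 * n) = N := by
    unfold dst
    rw [h1]
    exact min_eq_left (by omega)
  rw [h2, div_self (by positivity), sub_self]

theorem bw_ge {N n : ℕ} (hN : 0 < N) : 1 - (n : ℝ) / N ≤ bw N n := by
  unfold bw
  have h : dst N (2 * n) ≤ n := by
    unfold dst
    omega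
  have h' : (dst N (2 * n) : ℝ) ≤ n := by exact_mod_cast h
  have hN' : (0 : ℝ) < N := by exact_mod_cast hN
  have := div_le_div_of_nonneg_right h' hN'.le
  linarith

theorem bw_var (N n : ℕ) (hn : 0 < n) : |bw N (n + 1) - bw N n| ≤ 1 / n + 1 / N := by
  rcases Nat.eq_zero_or_pos N with h0 | hN
  · subst h0
    unfold bw
    simp
  have hN' : (0 : ℝ) < N := by exact_mod_cast hN
  have hn' : (0 : ℝ) < n := by exact_mod_cast hn
  have h1 : bw N (n + 1) - bw N n = -(((dst N (2 * (n + 1)) : ℝ) - dst N (2 * n)) / N) := by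
    unfold bw
    ring
  rw [h1, abs_neg, abs_div, abs_of_pos hN', div_le_iff₀ hN']
  have h2 := dst_var N n hn
  have h3 : ((|(dst N (2 * (n + 1)) : ℤ) - dst N (2 * n)| : ℤ) : ℝ) ≤
      (((N : ℤ) / n + 1 : ℤ) : ℝ) := by exact_mod_cast h2
  push_cast at h3
  refine h3.trans ?_
  have h4 : (((N : ℤ) / n : ℤ) : ℝ) ≤ (N : ℝ) / n := by
    have : ((N : ℤ) / n : ℤ) = ((N / n : ℕ) : ℤ) := by norm_num
    rw [this]
    push_cast
    exact Nat.cast_div_le
  have h5 : (1 / (n : ℝ) + 1 / N) * N = N / n + 1 := by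
    field_simp
  rw [h5]
  linarith

theorem bw_id (N n : ℕ) (hN : 0 < N) (hn : 0 < n) :
    (N : ℝ) * bw N n = ∑ k ∈ range N, (uk N ((k + 1) * n) : ℝ) := by
  have h := dst_id N n hn
  have h' : ((∑ k ∈ range N, uk N ((k + 1) * n) : ℤ) : ℝ) = (N : ℝ) - dst N (2 * n) := by
    rw [h]
    push_cast
    ring
  push_cast at h'
  rw [h']
  have hN' : (N : ℝ) ≠ 0 := by positivity
  unfold bw
  field_simp

end Pool.Agent.H63.JL
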