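import Pool.Agent.H63.JL.Kv

/-!
# Sieve certificates that use the residue classes exactly, one modulus at a time
-/

set_option autoImplicit false

namespace Pool.Agent.H63.JL

open Finset

/-- an exact sieve certificate: position dependent lower bound sieve weights `lam d m`, and `B d` at most the sum
of `lam d m` over the positions `m < X` in any residue class mod `d`, such that the sum of the `B d` is positive -/
structure ExactCert (n X : ℕ) (lam : ℕ → ℕ → ℝ) (B : ℕ → ℝ) : Prop where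
  lower : ∀ m < X, ∀ e ∈ n.divisors, ∑ d ∈ e.divisors, lam d m ≤ if e = 1 then 1 else 0
  bound : ∀ d ∈ n.divisors, ∀ c : ℕ, B d ≤ ∑ m ∈ (range X).filter (fun m => m % d = c % d), lam d m
  gain : 0 < ∑ d ∈ n.divisors, B d

private lemma per_mod (d : ℕ) (x : ℕ → ℝ) (h : ∀ m, x (m + d) = x m) (m : ℕ) : x m = x (m % d) := by
  have h1 : ∀ j r : ℕ, x (r + d * j) = x r := by
    intro j
    induction j with
    | zero => intro r; simp
    | succ j ih =>
      intro r
      have : r + d * (j + 1) = (r + d * j) + d := by ring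
      rw [this, h, ih]
  conv_lhs => rw [← Nat.mod_add_div m d]
  exact h1 _ _

theorem exact_cert (n X : ℕ) (lam : ℕ → ℕ → ℝ) (B : ℕ → ℝ) (hn : 0 < n)
    (h : ExactCert n X lam B) : SieveCert n X n lam B := by
  refine ⟨h.lower, ?_, h.gain⟩
  intro d hd x hx
  have hd0 := Nat.pos_of_mem_divisors hd
  have hdn : d ≤ n := Nat.le_of_dvd hn (Nat.dvd_of_mem_divisors hd)
  obtain ⟨hper, hsum⟩ := hx.exact hdn
  have h1 : ∑ m ∈ range X, lam d m * x m =
      ∑ c ∈ range d, x c * ∑ m ∈ (range X).filter (fun m => m % d = c % d), lam d m := by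
    have h2 : ∀ c ∈ range d, x c * ∑ m ∈ (range X).filter (fun m => m % d = c % d), lam d m =
        ∑ m ∈ range X, if m % d = c then lam d m * x m else 0 := by
      intro c hc
      rw [mem_range] at hc
      rw [mul_sum, sum_filter]
      refine sum_congr rfl fun m _ => ?_
      rw [Nat.mod_eq_of_lt hc]
      split_ifs with h3
      · rw [per_mod d x hper m, h3]
        ring
      · rfl
    rw [sum_congr rfl h2, sum_comm]
    refine sum_congr rfl fun m _ => ?_
    rw [Finset.sum_ite_eq, if_pos (mem_range.2 (Nat.mod_lt m hd0))]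
  rw [h1]
  calc B d = (∑ c ∈ range d, x c) * B d := by rw [hsum, one_mul]
    _ = ∑ c ∈ range d, x c * B d := sum_mul _ _ _
    _ ≤ _ := sum_le_sum fun c _ => mul_le_mul_of_nonneg_left (h.bound d hd c) (hx.mem c).1

/-- the lower bound for exact certificates -/
theorem exact_barrier : ∃ c : ℝ, 0 < c ∧ ∀ k : ℕ, 2 ≤ k →
    ∀ (n X : ℕ) (lam : ℕ → ℕ → ℝ) (B : ℕ → ℝ),
    0 < n → (∀ i < k, Nat.nth Nat.Prime i ∣ n) → ExactCert n X lam B →
    c * ((k : ℝ) ^ 2 / Real.log k ^ 2) < X := by
  obtain ⟨c, hc, h⟩ := barrier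
  exact ⟨c, hc, fun k hk n X lam B hn hi hE =>
    (h k hk n X n lam B hn hi (exact_cert n X lam B hn hE)).1⟩

/-- the lower bound for certificates that are exact only up to `D` -/
theorem near_barrier : ∃ c : ℝ, 0 < c ∧ ∀ k : ℕ, 2 ≤ k →
    ∀ (n X D : ℕ) (lam : ℕ → ℕ → ℝ) (B : ℕ → ℝ),
    0 < n → (∀ i < k, Nat.nth Nat.Prime i ∣ n) → (D : ℝ) ≤ c * ((k : ℝ) ^ 2 / Real.log k ^ 2) →
    SieveCert n X D lam B → c * (k : ℝ) ^ 2 < X := by
  obtain ⟨c, hc, h⟩ := barrier
  refine ⟨c, hc, fun k hk n X D lam B hn hi hD hE => ?_⟩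
  rcases (h k hk n X D lam B hn hi hE).2 with h1 | h1
  · exact h1
  · exfalso
    linarith

end Pool.Agent.H63.JL
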