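import Pool.Agent.H63.JL.Zv

/-!
# Lower bounds for the length of a certificate in terms of the number `k` of primes
-/

set_option autoImplicit false

namespace Pool.Agent.H63.JL

open Finset Filter Topology

private lemma kv_z : ∀ᶠ x : ℝ in atTop, 32 ≤ x ∧ 1 ≤ Real.log x ∧ 12 * Real.log x ≤ x ∧
    12 ≤ 1 / 2 ^ 24 * (x ^ 2 / Real.log x ^ 4) := by
  have h1 := (Real.isLittleO_pow_log_id_atTop (n := 4)).bound (show (0 : ℝ) < 1 / 2 ^ 28 by norm_num)
  have h2 := (Real.isLittleO_pow_log_id_atTop (n := 1)).bound (show (0 : ℝ) < 1 / 12 by norm_num)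
  have h3 := Real.tendsto_log_atTop.eventually_ge_atTop 1
  filter_upwards [h1, h2, h3, eventually_ge_atTop 32] with x a1 a2 a3 a4
  rw [id, Real.norm_of_nonneg (by positivity), Real.norm_of_nonneg (by linarith)] at a1
  rw [id, pow_one, Real.norm_of_nonneg (by linarith), Real.norm_of_nonneg (by linarith)] at a2
  refine ⟨a4, a3, by linarith, ?_⟩
  have h4 : 0 < Real.log x ^ 4 := by positivity
  rw [← mul_div_assoc, le_div_iff₀ h4]
  nlinarith

/-- all primes below `k log k / 2` are among the first `k` -/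
private lemma kv_k : ∀ᶠ k : ℕ in atTop, 8 ≤ k ∧
    (Nat.primeCounting ⌊(k : ℝ) * Real.log k / 2⌋₊ : ℝ) ≤ k := by
  have h1 := Chebyshev.eventually_primeCounting_le (ε := 1 / 10) (by norm_num)
  have h2 : Tendsto (fun k : ℕ => (k : ℝ) * Real.log k / 2) atTop atTop := by
    refine Tendsto.atTop_div_const (by norm_num) ?_
    exact tendsto_natCast_atTop_atTop.atTop_mul_atTop₀
      (Real.tendsto_log_atTop.comp tendsto_natCast_atTop_atTop)
  filter_upwards [h2.eventually h1, eventually_ge_atTop 8] with k a1 a2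
  refine ⟨a2, a1.trans ?_⟩
  have hk : (8 : ℝ) ≤ k := by exact_mod_cast a2
  have hlk : 2 ≤ Real.log k := by
    have h3 : Real.log 8 ≤ Real.log k := Real.log_le_log (by norm_num) hk
    have h4 : Real.log 8 = 3 * Real.log 2 := by
      have : (8 : ℝ) = 2 ^ 3 := by norm_num
      rw [this, Real.log_pow]
      norm_num
    have := Real.log_two_gt_d9
    linarith
  have h4 : Real.log 4 ≤ 1.4 := by
    have h5 : Real.log 4 = 2 * Real.log 2 := by
      have : (4 : ℝ) = 2 ^ 2 := by norm_num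
      rw [this, Real.log_pow]
      norm_num
    have := Real.log_two_lt_d9
    linarith
  have hx : (k : ℝ) ≤ k * Real.log k / 2 := by nlinarith
  have hlx : Real.log k ≤ Real.log (k * Real.log k / 2) := Real.log_le_log (by linarith) hx
  have h5 : (Real.log 4 + 1 / 10) * (k * Real.log k / 2) / Real.log (k * Real.log k / 2) ≤
      (Real.log 4 + 1 / 10) * (k * Real.log k / 2) / Real.log k := by
    refine div_le_div_of_nonneg_left ?_ (by linarith) hlx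
    have : 0 ≤ Real.log 4 := Real.log_nonneg (by norm_num)
    positivity
  refine h5.trans ?_
  rw [div_le_iff₀ (by linarith)]
  nlinarith [mul_nonneg (show (0 : ℝ) ≤ k by linarith) (show (0 : ℝ) ≤ Real.log k by linarith)]

private lemma kv_dvd (n k z : ℕ) (hz : Nat.primeCounting z ≤ k)
    (hn : ∀ i < k, Nat.nth Nat.Prime i ∣ n) (p : ℕ) (hp : p.Prime) (hpz : p < z) : p ∣ n := by
  have h1 : Nat.nth Nat.Prime (Nat.count Nat.Prime p) = p := Nat.nth_count hp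
  have h2 : Nat.count Nat.Prime p < k := by
    have h3 : Nat.count Nat.Prime (p + 1) = Nat.count Nat.Prime p + 1 := by
      rw [Nat.count_succ, if_pos hp]
    have h4 : Nat.count Nat.Prime (p + 1) ≤ Nat.count Nat.Prime (z + 1) :=
      Nat.count_monotone _ (by omega)
    have h5 : Nat.primeCounting z = Nat.count Nat.Prime (z + 1) := rfl
    omega
  rw [← h1]
  exact hn _ h2

/-- large `k` -/
private lemma kv_large : ∀ᶠ k : ℕ in atTop, ∀ (n X D : ℕ) (lam : ℕ → ℕ → ℝ) (B : ℕ → ℝ),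
    0 < n → (∀ i < k, Nat.nth Nat.Prime i ∣ n) → SieveCert n X D lam B →
    1 / 2 ^ 35 * ((k : ℝ) ^ 2 / Real.log k ^ 2) < X ∧
      (1 / 2 ^ 35 * (k : ℝ) ^ 2 < X ∨ 1 / 2 ^ 35 * ((k : ℝ) ^ 2 / Real.log k ^ 2) < D) := by
  have h2 : Tendsto (fun k : ℕ => (k : ℝ) * Real.log k / 2) atTop atTop := by
    refine Tendsto.atTop_div_const (by norm_num) ?_
    exact tendsto_natCast_atTop_atTop.atTop_mul_atTop₀
      (Real.tendsto_log_atTop.comp tendsto_natCast_atTop_atTop)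
  have h3 : Tendsto (fun k : ℕ => ((⌊(k : ℝ) * Real.log k / 2⌋₊ : ℕ) : ℝ)) atTop atTop :=
    tendsto_natCast_atTop_atTop.comp (tendsto_nat_floor_atTop.comp h2)
  filter_upwards [kv_k, h3.eventually kv_z] with k hk hz n X D lam B hn hni hc
  obtain ⟨hk8, hpi⟩ := hk
  obtain ⟨z1, z2, z3, z4⟩ := hz
  set z := ⌊(k : ℝ) * Real.log k / 2⌋₊ with hzdef
  have hk : (8 : ℝ) ≤ k := by exact_mod_cast hk8
  have hlk : 2 ≤ Real.log k := by
    have h3 : Real.log 8 ≤ Real.log k := Real.log_le_log (by norm_num) hk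
    have h4 : Real.log 8 = 3 * Real.log 2 := by
      have : (8 : ℝ) = 2 ^ 3 := by norm_num
      rw [this, Real.log_pow]
      norm_num
    have := Real.log_two_gt_d9
    linarith
  have hz32 : 32 ≤ z := by exact_mod_cast z1
  have hp : ∀ p : ℕ, p.Prime → p < z → p ∣ n :=
    kv_dvd n k z (by exact_mod_cast hpi) hni
  set κ := Real.log k with hκ
  set ℓ := Real.log z with hℓ
  have hkκ : 0 ≤ (k : ℝ) * κ / 2 := by positivity
  have hzle : (z : ℝ) ≤ k * κ / 2 := Nat.floor_le hkκ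
  have hzge : (k : ℝ) * κ / 4 ≤ z := by
    have h4 := Nat.lt_floor_add_one ((k : ℝ) * κ / 2)
    rw [← hzdef] at h4
    linarith
  have hκk : κ ≤ k := by
    have := Real.log_le_sub_one_of_pos (show (0 : ℝ) < k by linarith)
    linarith
  have hℓκ : ℓ ≤ 2 * κ := by
    have h4 : ℓ ≤ Real.log ((k : ℝ) ^ 2) := Real.log_le_log (by linarith) (by nlinarith)
    rw [Real.log_pow] at h4
    push_cast at h4
    exact h4
  have hκ0 : 0 < κ := by linarith
  have hℓ0 : 0 < ℓ := by linarith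
  have hk0 : (0 : ℝ) < k := by linarith
  have e1 : (k : ℝ) ^ 2 / 64 ≤ (z : ℝ) ^ 2 / ℓ ^ 2 := by
    rw [div_le_div_iff₀ (by norm_num) (by positivity)]
    have a1 : ((k : ℝ) * κ / 4) ^ 2 ≤ (z : ℝ) ^ 2 := pow_le_pow_left₀ (by positivity) hzge 2
    have a2 : ℓ ^ 2 ≤ (2 * κ) ^ 2 := pow_le_pow_left₀ hℓ0.le hℓκ 2
    calc (k : ℝ) ^ 2 * ℓ ^ 2 ≤ (k : ℝ) ^ 2 * (2 * κ) ^ 2 :=
          mul_le_mul_of_nonneg_left a2 (by positivity)
      _ = ((k : ℝ) * κ / 4) ^ 2 * 64 := by ring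
      _ ≤ (z : ℝ) ^ 2 * 64 := mul_le_mul_of_nonneg_right a1 (by norm_num)
  have e2 : (k : ℝ) ^ 2 / κ ^ 2 / 256 ≤ (z : ℝ) ^ 2 / ℓ ^ 4 := by
    have a2 : ℓ ^ 2 ≤ 4 * κ ^ 2 := by
      have := pow_le_pow_left₀ hℓ0.le hℓκ 2
      linarith
    have a3 : (z : ℝ) ^ 2 / ℓ ^ 4 = (z : ℝ) ^ 2 / ℓ ^ 2 / ℓ ^ 2 := by
      rw [div_div]
      ring
    rw [a3]
    calc (k : ℝ) ^ 2 / κ ^ 2 / 256 = (k : ℝ) ^ 2 / 64 / (4 * κ ^ 2) := by
          field_simp
          ring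
      _ ≤ (z : ℝ) ^ 2 / ℓ ^ 2 / (4 * κ ^ 2) := div_le_div_of_nonneg_right e1 (by positivity)
      _ ≤ (z : ℝ) ^ 2 / ℓ ^ 2 / ℓ ^ 2 :=
          div_le_div_of_nonneg_left (by positivity) (by positivity) a2
  have hQ : 0 ≤ (k : ℝ) ^ 2 / κ ^ 2 := by positivity
  have r1 := zv_two z n X D lam B hz32 z2 z3 hn hp hc
  refine ⟨?_, ?_⟩
  · have : 1 / 2 ^ 35 * ((k : ℝ) ^ 2 / κ ^ 2) ≤
        1 / (5 * 2 ^ 24) * ((k : ℝ) ^ 2 / κ ^ 2 / 256) := by
      nlinarith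
    have : 1 / (5 * 2 ^ 24) * ((k : ℝ) ^ 2 / κ ^ 2 / 256) ≤
        1 / (5 * 2 ^ 24) * ((z : ℝ) ^ 2 / ℓ ^ 4) := mul_le_mul_of_nonneg_left e2 (by norm_num)
    linarith
  · rcases le_or_gt (D : ℝ) (1 / 2 ^ 24 * ((z : ℝ) ^ 2 / ℓ ^ 4)) with hD | hD
    · left
      have r2 := zv_one z n X D lam B hz32 z2 z3 z4 hn hp hc hD
      have : 1 / 2 ^ 35 * (k : ℝ) ^ 2 ≤ 1 / 50000 * ((z : ℝ) ^ 2 / ℓ ^ 2) := by
        nlinarith
      linarith
    · right
      have : 1 / 2 ^ 35 * ((k : ℝ) ^ 2 / κ ^ 2) ≤ 1 / 2 ^ 24 * ((z : ℝ) ^ 2 / ℓ ^ 4) := by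
        nlinarith
      linarith

/-- the lower bounds -/
theorem barrier : ∃ c : ℝ, 0 < c ∧ ∀ k : ℕ, 2 ≤ k →
    ∀ (n X D : ℕ) (lam : ℕ → ℕ → ℝ) (B : ℕ → ℝ),
    0 < n → (∀ i < k, Nat.nth Nat.Prime i ∣ n) → SieveCert n X D lam B →
    c * ((k : ℝ) ^ 2 / Real.log k ^ 2) < X ∧
      (c * (k : ℝ) ^ 2 < X ∨ c * ((k : ℝ) ^ 2 / Real.log k ^ 2) < D) := by
  obtain ⟨k₀, hk₀⟩ := eventually_atTop.1 kv_large
  set c := min (1 / 2 ^ 35) (1 / (4 * ((k₀ : ℝ) ^ 2 + 1))) with hcdef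
  have hc0 : 0 < c := by
    rw [hcdef]
    refine lt_min (by norm_num) (by positivity)
  have hc1 : c ≤ 1 / 2 ^ 35 := min_le_left _ _
  have hc2 : c ≤ 1 / (4 * ((k₀ : ℝ) ^ 2 + 1)) := min_le_right _ _
  refine ⟨c, hc0, fun k hk n X D lam B hn hni hc => ?_⟩
  have hkr : (2 : ℝ) ≤ k := by exact_mod_cast hk
  have hlk : Real.log 2 ≤ Real.log k := Real.log_le_log (by norm_num) hkr
  have hl2 := Real.log_two_gt_d9
  have hl0 : 0 < Real.log k := by linarith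
  have hQ : 0 ≤ (k : ℝ) ^ 2 / Real.log k ^ 2 := by positivity
  rcases le_or_gt k₀ k with h | h
  · obtain ⟨r1, r2⟩ := hk₀ k h n X D lam B hn hni hc
    have a1 : c * ((k : ℝ) ^ 2 / Real.log k ^ 2) ≤
        1 / 2 ^ 35 * ((k : ℝ) ^ 2 / Real.log k ^ 2) := mul_le_mul_of_nonneg_right hc1 hQ
    have a2 : c * (k : ℝ) ^ 2 ≤ 1 / 2 ^ 35 * (k : ℝ) ^ 2 :=
      mul_le_mul_of_nonneg_right hc1 (by positivity)
    refine ⟨by linarith, ?_⟩
    rcases r2 with r2 | r2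
    · left
      linarith
    · right
      linarith
  · have hX : (1 : ℝ) ≤ X := by exact_mod_cast cert_pos n X D lam B hc
    have hkk : (k : ℝ) ^ 2 ≤ (k₀ : ℝ) ^ 2 := by
      have : (k : ℝ) ≤ k₀ := by exact_mod_cast h.le
      exact pow_le_pow_left₀ (by linarith) this 2
    have a1 : c * (k : ℝ) ^ 2 < 1 / 4 := by
      calc c * (k : ℝ) ^ 2 ≤ 1 / (4 * ((k₀ : ℝ) ^ 2 + 1)) * (k : ℝ) ^ 2 :=
            mul_le_mul_of_nonneg_right hc2 (by positivity)
        _ ≤ 1 / (4 * ((k₀ : ℝ) ^ 2 + 1)) * (k₀ : ℝ) ^ 2 :=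
            mul_le_mul_of_nonneg_left hkk (by positivity)
        _ < 1 / 4 := by
            rw [div_mul_eq_mul_div, div_lt_div_iff₀ (by positivity) (by norm_num)]
            linarith
    have a2 : c * ((k : ℝ) ^ 2 / Real.log k ^ 2) < 1 := by
      have b1 : (1 : ℝ) / 4 ≤ Real.log k ^ 2 := by nlinarith
      rw [← mul_div_assoc, div_lt_one (by positivity)]
      linarith
    exact ⟨by linarith, Or.inl (by linarith)⟩

end Pool.Agent.H63.JL
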