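import Pool.Agent.H63.JL.Base

/-!
# The Liouville sum of the weights over the multiples of `d`

`∑_j λ(d j) w(d j) = λ(d) ∑_r u(r² d) / N`, at most `2 √(N / d)`.
-/

set_option autoImplicit false

namespace Pool.Agent.H63.JL

open Finset ArithmeticFunction

/-- sums over multiples -/
theorem sum_mult (N m : ℕ) (hm : 0 < m) (G : ℕ → ℝ) (hG : ∀ j, N < j → G j = 0) :
    ∑ k ∈ range N, G (m * (k + 1)) = ∑ n ∈ (Icc 1 N).filter (fun n => m ∣ n), G n := by
  have h1 : ∑ k ∈ range (N / m), G (m * (k + 1)) = ∑ k ∈ range N, G (m * (k + 1)) := by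
    refine sum_subset (range_subset_range.2 (Nat.div_le_self N m)) fun k _ hk => hG _ ?_
    rw [mem_range, not_lt] at hk
    have := Nat.lt_mul_div_succ N hm
    calc N < m * (N / m + 1) := this
      _ ≤ m * (k + 1) := Nat.mul_le_mul_left m (by omega)
  rw [← h1]
  refine sum_bij (fun k _ => m * (k + 1)) ?_ ?_ ?_ fun _ _ => rfl
  · intro k hk
    rw [mem_range] at hk
    rw [mem_filter, mem_Icc]
    refine ⟨⟨Nat.succ_le_of_lt (Nat.mul_pos hm (Nat.succ_pos k)), ?_⟩, dvd_mul_right _ _⟩
    calc m * (k + 1) ≤ m * (N / m) := Nat.mul_le_mul_left m hk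
      _ ≤ N := Nat.mul_div_le N m
  · intro a _ b _ hab
    have := Nat.eq_of_mul_eq_mul_left hm hab
    omega
  · intro n hn
    rw [mem_filter, mem_Icc] at hn
    obtain ⟨⟨h1, h2⟩, c, rfl⟩ := hn
    have hc : 0 < c := Nat.pos_of_ne_zero fun h => by
      subst h
      omega
    refine ⟨c - 1, ?_, ?_⟩
    · rw [mem_range]
      have : c ≤ N / m := (Nat.le_div_iff_mul_le hm).2 (by rwa [mul_comm])
      omega
    · show m * (c - 1 + 1) = m * c
      rw [Nat.sub_add_cancel hc]

/-- divisor sums of the Liouville function on prime powers -/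
private lemma lio_pp (p v : ℕ) (hp : p.Prime) :
    ∑ l ∈ (p ^ v).divisors, (liouville l : ℤ) = if Even v then 1 else 0 := by
  rw [Nat.sum_divisors_prime_pow hp]
  have h : ∀ i ∈ range (v + 1), (liouville (p ^ i) : ℤ) = (-1) ^ i := by
    intro i _
    rw [liouville_apply (pow_ne_zero _ hp.ne_zero), cardFactors_apply_prime_pow hp]
  rw [sum_congr rfl h]
  rw [neg_one_geom_sum]
  by_cases hv : Even v
  · rw [if_pos hv, if_neg (by
      rw [Nat.even_add_one]
      exact not_not.2 hv)]
  · rw [if_neg hv, if_pos (by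
      rw [Nat.even_add_one]
      exact hv)]

/-- the divisor sum of the Liouville function is at most one, and vanishes off the squares -/
theorem lio_div (t : ℕ) (ht : 0 < t) :
    |∑ l ∈ t.divisors, (liouville l : ℤ)| ≤ if IsSquare t then 1 else 0 := by
  have h1 : ∀ m n : ℕ, m.Coprime n → ∑ l ∈ (m * n).divisors, (liouville l : ℤ) =
      (∑ l ∈ m.divisors, (liouville l : ℤ)) * ∑ l ∈ n.divisors, (liouville l : ℤ) := by
    intro m n hmn
    have hmul : IsMultiplicative ((ArithmeticFunction.zeta : ArithmeticFunction ℤ) * liouville) :=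
      (isMultiplicative_zeta.natCast).mul isMultiplicative_liouville
    have h2 := hmul.map_mul_of_coprime hmn
    rw [coe_zeta_mul_apply, coe_zeta_mul_apply, coe_zeta_mul_apply] at h2
    exact h2
  have h3 : ∀ t : ℕ, 0 < t → |∑ l ∈ t.divisors, (liouville l : ℤ)| ≤ 1 ∧
      ((∑ l ∈ t.divisors, (liouville l : ℤ)) ≠ 0 → IsSquare t) := by
    intro t
    induction t using Nat.recOnPosPrimePosCoprime with
    | prime_pow p v hp hv =>
      intro _
      rw [lio_pp p v hp]
      split_ifs with h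
      · refine ⟨by simp, fun _ => ?_⟩
        obtain ⟨c, hc⟩ := h
        exact ⟨p ^ c, by rw [hc, pow_add]⟩
      · simp
    | zero => intro h; omega
    | one => simp [liouville_apply_one]
    | coprime a b ha hb hab iha ihb =>
      intro _
      rw [h1 a b hab]
      have ia := iha (by omega)
      have ib := ihb (by omega)
      refine ⟨?_, fun h => ?_⟩
      · rw [abs_mul]
        calc _ ≤ (1 : ℤ) * 1 := mul_le_mul ia.1 ib.1 (abs_nonneg _) (by norm_num)
          _ = 1 := by norm_num
      · exact (ia.2 (left_ne_zero_of_mul h)).mul (ib.2 (right_ne_zero_of_mul h))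
  have h4 := h3 t ht
  split_ifs with h
  · exact h4.1
  · by_contra hc
    refine h (h4.2 fun h0 => hc ?_)
    rw [h0]
    simp

/-- the Liouville sum -/
theorem lio_sum (N d : ℕ) (hN : 0 < N) (hd : 0 < d) :
    |∑ m ∈ range N, ((liouville (d * (m + 1)) : ℤ) : ℝ) * bw N (d * (m + 1))| ≤
      2 * √((N : ℝ) / d) := by
  have hN' : (0 : ℝ) < N := by exact_mod_cast hN
  have hd' : (0 : ℝ) < d := by exact_mod_cast hd
  have h0 : ∀ m ∈ range N, ((liouville (d * (m + 1)) : ℤ) : ℝ) * ((N : ℝ) * bw N (d * (m + 1))) =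
      ∑ n ∈ Icc 1 N, if (m + 1) ∣ n then
        ((liouville (d * (m + 1)) : ℤ) : ℝ) * (uk N (d * n) : ℝ) else 0 := by
    intro m _
    rw [bw_id N (d * (m + 1)) hN (Nat.mul_pos hd (Nat.succ_pos m))]
    have h1 := sum_mult N (m + 1) (Nat.succ_pos m) (fun j => (uk N (d * j) : ℝ)) (fun j hj => by
      have : N ≤ d * j := hj.le.trans (Nat.le_mul_of_pos_left j hd)
      rw [uk_zero this]
      simp)
    have h2 : ∑ k ∈ range N, (uk N ((k + 1) * (d * (m + 1))) : ℝ) =
        ∑ k ∈ range N, (uk N (d * ((m + 1) * (k + 1))) : ℝ) := by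
      refine sum_congr rfl fun k _ => ?_
      have : (k + 1) * (d * (m + 1)) = d * ((m + 1) * (k + 1)) := by ring
      rw [this]
    rw [h2, h1, mul_sum, sum_filter]
  have h1 : (N : ℝ) * ∑ m ∈ range N, ((liouville (d * (m + 1)) : ℤ) : ℝ) * bw N (d * (m + 1)) =
      ∑ n ∈ Icc 1 N, (uk N (d * n) : ℝ) * (((liouville d : ℤ) : ℝ) *
        ((∑ l ∈ n.divisors, (liouville l : ℤ) : ℤ) : ℝ)) := by
    rw [mul_sum]
    have h2 : ∀ m ∈ range N, (N : ℝ) * (((liouville (d * (m + 1)) : ℤ) : ℝ) *
        bw N (d * (m + 1))) = ∑ n ∈ Icc 1 N, if (m + 1) ∣ n then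
        ((liouville (d * (m + 1)) : ℤ) : ℝ) * (uk N (d * n) : ℝ) else 0 := by
      intro m hm
      rw [← h0 m hm]
      ring
    rw [sum_congr rfl h2, sum_comm]
    refine sum_congr rfl fun n hn => ?_
    rw [mem_Icc] at hn
    push_cast
    rw [mul_sum, mul_sum, ← sum_filter]
    symm
    refine sum_bij (fun m _ => m - 1) ?_ ?_ ?_ ?_
    · intro m hm
      have h3 := Nat.pos_of_mem_divisors hm
      have h4 := Nat.divisor_le hm
      rw [mem_filter, mem_range]
      refine ⟨by omega, ?_⟩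
      rw [Nat.sub_add_cancel h3]
      exact Nat.dvd_of_mem_divisors hm
    · intro a ha b hb hab
      have h3 := Nat.pos_of_mem_divisors ha
      have h4 := Nat.pos_of_mem_divisors hb
      omega
    · intro m hm
      rw [mem_filter] at hm
      exact ⟨m + 1, Nat.mem_divisors.2 ⟨hm.2, by omega⟩, rfl⟩
    · intro m hm
      have h3 := Nat.pos_of_mem_divisors hm
      show (uk N (d * n) : ℝ) * (((liouville d : ℤ) : ℝ) * ((liouville m : ℤ) : ℝ)) =
        ((liouville (d * (m - 1 + 1)) : ℤ) : ℝ) * (uk N (d * n) : ℝ)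
      rw [Nat.sub_add_cancel h3, liouville_apply_mul]
      push_cast
      ring
  have hld : |((liouville d : ℤ) : ℝ)| ≤ 1 := by
    rw [liouville_apply hd.ne']
    push_cast
    rw [abs_pow]
    simp
  set R := Nat.sqrt (N / d) with hR
  have h2 : |(N : ℝ) * ∑ m ∈ range N, ((liouville (d * (m + 1)) : ℤ) : ℝ) * bw N (d * (m + 1))| ≤
      2 * N * R := by
    rw [h1]
    refine (abs_sum_le_sum_abs _ _).trans ?_
    have h3 : ∑ n ∈ Icc 1 N, |(uk N (d * n) : ℝ) * (((liouville d : ℤ) : ℝ) *
        ((∑ l ∈ n.divisors, (liouville l : ℤ) : ℤ) : ℝ))| ≤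
        ∑ n ∈ Icc 1 N, if (d * n < N ∧ IsSquare n) then 2 * (N : ℝ) else 0 := by
      refine sum_le_sum fun n hn => ?_
      rw [mem_Icc] at hn
      have h6 := lio_div n (by omega)
      have h6' : |((∑ l ∈ n.divisors, (liouville l : ℤ) : ℤ) : ℝ)| ≤
          if IsSquare n then 1 else 0 := by
        have h7 : ((|∑ l ∈ n.divisors, (liouville l : ℤ)| : ℤ) : ℝ) ≤
            ((if IsSquare n then 1 else 0 : ℤ) : ℝ) := by exact_mod_cast h6
        rw [Int.cast_abs] at h7
        refine h7.trans (le_of_eq ?_)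
        split_ifs <;> simp
      rw [abs_mul, abs_mul]
      split_ifs with h
      · rw [if_pos h.2] at h6'
        have h5 : |(uk N (d * n) : ℝ)| ≤ 2 * N := by
          have := uk_abs N (d * n)
          exact_mod_cast this
        have h8 : |((liouville d : ℤ) : ℝ)| *
            |((∑ l ∈ n.divisors, (liouville l : ℤ) : ℤ) : ℝ)| ≤ 1 * 1 :=
          mul_le_mul hld h6' (abs_nonneg _) (by norm_num)
        calc _ ≤ 2 * (N : ℝ) * (1 * 1) := mul_le_mul h5 h8 (by positivity) (by positivity)
          _ = 2 * N := by ring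
      · rw [not_and_or] at h
        rcases h with h | h
        · rw [uk_zero (not_lt.1 h)]
          simp
        · rw [if_neg h] at h6'
          have := le_antisymm h6' (abs_nonneg _)
          rw [this]
          simp
    refine h3.trans ?_
    rw [← sum_filter, sum_const, nsmul_eq_mul]
    have hc : ((Icc 1 N).filter fun n => d * n < N ∧ IsSquare n).card ≤ R := by
      have h4 : ((Icc 1 N).filter fun n => d * n < N ∧ IsSquare n) ⊆
          (Icc 1 R).image fun r => r * r := by
        intro n hn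
        rw [mem_filter, mem_Icc] at hn
        obtain ⟨⟨h5, _⟩, h6, r, hr⟩ := hn
        rw [mem_image]
        refine ⟨r, ?_, hr.symm⟩
        rw [mem_Icc]
        refine ⟨Nat.pos_of_ne_zero fun h => ?_, ?_⟩
        · subst h
          omega
        · rw [hR, Nat.le_sqrt, ← hr, Nat.le_div_iff_mul_le hd, mul_comm]
          exact h6.le
      calc _ ≤ ((Icc 1 R).image fun r => r * r).card := card_le_card h4
        _ ≤ (Icc 1 R).card := card_image_le
        _ = R := by simp
    have hc' : (((Icc 1 N).filter fun n => d * n < N ∧ IsSquare n).card : ℝ) ≤ R := by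
      exact_mod_cast hc
    calc _ ≤ (R : ℝ) * (2 * N) := mul_le_mul_of_nonneg_right hc' (by positivity)
      _ = 2 * N * R := by ring
  have hRs : (R : ℝ) ≤ √((N : ℝ) / d) := by
    refine Real.le_sqrt_of_sq_le ?_
    have h3 : R * R ≤ N / d := Nat.sqrt_le (N / d)
    have h4 : ((R * R : ℕ) : ℝ) ≤ ((N / d : ℕ) : ℝ) := by exact_mod_cast h3
    have h5 : ((N / d : ℕ) : ℝ) ≤ (N : ℝ) / d := Nat.cast_div_le
    push_cast at h4
    rw [sq]
    linarith
  rw [abs_mul, abs_of_pos hN'] at h2
  have h3 : (N : ℝ) * |∑ m ∈ range N, ((liouville (d * (m + 1)) : ℤ) : ℝ) * bw N (d * (m + 1))| ≤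
      N * (2 * √((N : ℝ) / d)) := by
    refine h2.trans ?_
    have : 2 * (N : ℝ) * R ≤ 2 * N * √((N : ℝ) / d) :=
      mul_le_mul_of_nonneg_left hRs (by positivity)
    linarith
  exact le_of_mul_le_mul_left h3 hN'

end Pool.Agent.H63.JL
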