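import Mathlib

/-!
# Möbius inversion with a cut, and sums of totients
-/

set_option autoImplicit false

namespace Pool.Agent.H63.JL

open Finset ArithmeticFunction

/-- the corrections `R e = ∑_(l ∣ n / e, e l ≤ L) μ(l) r(e l)` -/
noncomputable def RR (n L : ℕ) (r : ℕ → ℝ) (e : ℕ) : ℝ :=
  ∑ l ∈ (n / e).divisors.filter (fun l => e * l ≤ L), ((moebius l : ℤ) : ℝ) * r (e * l)

theorem RR_sum (n L : ℕ) (r f : ℕ → ℝ) (hn : 0 < n) :
    ∑ e ∈ n.divisors, RR n L r e * ∑ d ∈ e.divisors, f d =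
      ∑ g ∈ n.divisors.filter (fun g => g ≤ L), r g * f g := by
  have h1 : ∑ e ∈ n.divisors, RR n L r e * ∑ d ∈ e.divisors, f d =
      ∑ e ∈ n.divisors, ∑ l ∈ (n / e).divisors.filter (fun l => e * l ≤ L),
        r (e * l) * (((moebius l : ℤ) : ℝ) * ∑ d ∈ e.divisors, f d) := by
    refine sum_congr rfl fun e _ => ?_
    unfold RR
    rw [sum_mul]
    refine sum_congr rfl fun l _ => ?_
    ring
  have h2 : ∑ g ∈ n.divisors.filter (fun g => g ≤ L), r g * f g =
      ∑ g ∈ n.divisors.filter (fun g => g ≤ L), ∑ x ∈ g.divisorsAntidiagonal,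
        r (x.2 * x.1) * (((moebius x.1 : ℤ) : ℝ) * ∑ d ∈ x.2.divisors, f d) := by
    refine sum_congr rfl fun g hg => ?_
    rw [mem_filter] at hg
    have hg0 : 0 < g := Nat.pos_of_mem_divisors hg.1
    have h3 := (sum_eq_iff_sum_mul_moebius_eq (f := f) (g := fun m => ∑ d ∈ m.divisors, f d)).1
      (fun m _ => rfl) g hg0
    have h4 : ∑ x ∈ g.divisorsAntidiagonal, r (x.2 * x.1) *
        (((moebius x.1 : ℤ) : ℝ) * ∑ d ∈ x.2.divisors, f d) =
        ∑ x ∈ g.divisorsAntidiagonal, r g *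
        (((moebius x.1 : ℤ) : ℝ) * ∑ d ∈ x.2.divisors, f d) := by
      refine sum_congr rfl fun x hx => ?_
      rw [Nat.mem_divisorsAntidiagonal] at hx
      rw [mul_comm x.2 x.1, hx.1]
    rw [h4, ← mul_sum]
    congr 1
    exact h3.symm
  rw [h1, h2, sum_sigma', sum_sigma']
  refine sum_bij' (fun x _ => ⟨x.1 * x.2, (x.2, x.1)⟩) (fun y _ => ⟨y.2.2, y.2.1⟩) ?_ ?_ ?_ ?_ ?_
  · rintro ⟨e, l⟩ h
    simp only [mem_sigma, mem_filter, Nat.mem_divisors, Nat.mem_divisorsAntidiagonal] at h ⊢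
    obtain ⟨⟨h3, _⟩, ⟨h4, h5⟩, h6⟩ := h
    have h7 : e * l ∣ n := by
      obtain ⟨c, hc⟩ := h3
      have he : 0 < e := Nat.pos_of_ne_zero fun h0 => by
        subst h0
        rw [zero_mul] at hc
        omega
      rw [hc, Nat.mul_div_cancel_left c he] at h4
      rw [hc]
      exact Nat.mul_dvd_mul_left e h4
    refine ⟨⟨⟨h7, hn.ne'⟩, h6⟩, mul_comm l e, ?_⟩
    exact (Nat.pos_of_dvd_of_pos h7 hn).ne'
  · rintro ⟨g, x⟩ h
    simp only [mem_sigma, mem_filter, Nat.mem_divisors, Nat.mem_divisorsAntidiagonal] at h ⊢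
    obtain ⟨⟨⟨h3, _⟩, h4⟩, h5, h6⟩ := h
    have h7 : x.2 * x.1 ∣ n := by rw [mul_comm, h5]; exact h3
    have h8 : x.2 ∣ n := (dvd_mul_right _ _).trans h7
    have hx : 0 < x.2 := Nat.pos_of_dvd_of_pos h8 hn
    refine ⟨⟨h8, hn.ne'⟩, ⟨?_, ?_⟩, ?_⟩
    · obtain ⟨c, hc⟩ := h8
      rw [hc, Nat.mul_div_cancel_left c hx]
      rw [hc] at h7
      exact Nat.dvd_of_mul_dvd_mul_left hx h7
    · exact (Nat.div_pos (Nat.le_of_dvd hn h8) hx).ne'
    · rw [mul_comm, h5]
      exact h4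
  · rintro ⟨e, l⟩ _
    rfl
  · rintro ⟨g, x⟩ h
    simp only [mem_sigma, mem_filter, Nat.mem_divisors, Nat.mem_divisorsAntidiagonal] at h
    obtain ⟨_, h5, _⟩ := h
    obtain ⟨x1, x2⟩ := x
    simp only at h5
    subst h5
    simp only [mul_comm x2 x1]
  · rintro ⟨e, l⟩ _
    rfl

/-- bound of the corrections -/
theorem RR_le (n L : ℕ) (r : ℕ → ℝ) (ρ : ℕ → ℝ) (e : ℕ) (he : 0 < e)
    (hr : ∀ d, 0 < d → |r d| ≤ ρ d) :
    |RR n L r e| ≤ ∑ l ∈ Icc 1 (L / e), ρ (e * l) := by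
  unfold RR
  refine (abs_sum_le_sum_abs _ _).trans ?_
  have h1 : ∀ l ∈ (n / e).divisors.filter (fun l => e * l ≤ L),
      |((moebius l : ℤ) : ℝ) * r (e * l)| ≤ ρ (e * l) := by
    intro l hl
    rw [mem_filter] at hl
    have hl0 : 0 < l := Nat.pos_of_mem_divisors hl.1
    have h2 : |((moebius l : ℤ) : ℝ)| ≤ 1 := by
      have := abs_moebius_le_one (n := l)
      exact_mod_cast this
    rw [abs_mul]
    calc _ ≤ 1 * ρ (e * l) := mul_le_mul h2 (hr _ (Nat.mul_pos he hl0)) (abs_nonneg _) (by norm_num)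
      _ = _ := one_mul _
  refine (sum_le_sum h1).trans ?_
  refine sum_le_sum_of_subset_of_nonneg ?_ ?_
  · intro l hl
    rw [mem_filter] at hl
    have hl0 : 0 < l := Nat.pos_of_mem_divisors hl.1
    rw [mem_Icc]
    refine ⟨hl0, ?_⟩
    rw [Nat.le_div_iff_mul_le he, mul_comm]
    exact hl.2
  · intro l hl _
    rw [mem_Icc] at hl
    exact (abs_nonneg _).trans (hr _ (Nat.mul_pos he hl.1))

/-- sums of totients -/
theorem tot_sum (n : ℕ) (f : ℕ → ℝ) (hn : 0 < n) :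
    ∑ e ∈ n.divisors, ((n / e).totient : ℝ) * ∑ d ∈ e.divisors, f d =
      ∑ d ∈ n.divisors, (n : ℝ) / d * f d := by
  have h1 : ∑ e ∈ n.divisors, ((n / e).totient : ℝ) * ∑ d ∈ e.divisors, f d =
      ∑ e ∈ n.divisors, ∑ d ∈ n.divisors, if d ∣ e then ((n / e).totient : ℝ) * f d else 0 := by
    refine sum_congr rfl fun e he => ?_
    rw [mul_sum, ← sum_filter]
    refine sum_congr ?_ fun _ _ => rfl
    ext d
    rw [mem_filter, Nat.mem_divisors, Nat.mem_divisors]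
    rw [Nat.mem_divisors] at he
    constructor
    · rintro ⟨h, h'⟩
      exact ⟨⟨h.trans he.1, hn.ne'⟩, h⟩
    · rintro ⟨⟨_, _⟩, h⟩
      exact ⟨h, (Nat.pos_of_dvd_of_pos he.1 hn).ne'⟩
  rw [h1, sum_comm]
  refine sum_congr rfl fun d hd => ?_
  rw [← sum_filter, ← sum_mul]
  congr 1
  rw [Nat.mem_divisors] at hd
  obtain ⟨c, hc⟩ := hd.1
  have hd0 : 0 < d := Nat.pos_of_dvd_of_pos hd.1 hn
  have hd' : (0 : ℝ) < d := by exact_mod_cast hd0
  have hc0 : 0 < c := Nat.pos_of_ne_zero fun h0 => by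
    subst h0
    omega
  have h2 : ∑ e ∈ n.divisors.filter (fun e => d ∣ e), ((n / e).totient : ℝ) =
      ∑ m ∈ c.divisors, (m.totient : ℝ) := by
    refine sum_bij' (fun e _ => n / e) (fun m _ => n / m) ?_ ?_ ?_ ?_ ?_
    · intro e he
      rw [mem_filter, Nat.mem_divisors] at he
      obtain ⟨⟨⟨g, hg⟩, _⟩, ⟨k, hk⟩⟩ := he
      have he0 : 0 < e := Nat.pos_of_ne_zero fun h0 => by
        subst h0
        omega
      rw [Nat.mem_divisors, hg, Nat.mul_div_cancel_left g he0]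
      refine ⟨?_, hc0.ne'⟩
      have h3 : d * c = d * (k * g) := by rw [← hc, hg, hk]; ring
      have h4 := Nat.eq_of_mul_eq_mul_left hd0 h3
      exact ⟨k, by rw [h4, mul_comm]⟩
    · intro m hm
      rw [Nat.mem_divisors] at hm
      obtain ⟨⟨k, hk⟩, _⟩ := hm
      have hm0 : 0 < m := Nat.pos_of_ne_zero fun h0 => by
        subst h0
        omega
      rw [mem_filter, Nat.mem_divisors]
      have h3 : n = m * (d * k) := by rw [hc, hk]; ring
      rw [h3, Nat.mul_div_cancel_left _ hm0]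
      refine ⟨⟨dvd_mul_left _ _, by rw [← h3]; exact hn.ne'⟩, dvd_mul_right _ _⟩
    · intro e he
      rw [mem_filter, Nat.mem_divisors] at he
      exact Nat.div_div_self he.1.1 hn.ne'
    · intro m hm
      rw [Nat.mem_divisors] at hm
      exact Nat.div_div_self (hm.1.trans ⟨d, by rw [hc]; ring⟩) hn.ne'
    · intro e _
      rfl
  rw [h2]
  have h3 : ∑ m ∈ c.divisors, m.totient = c := Nat.sum_totient c
  have h4 : (∑ m ∈ c.divisors, (m.totient : ℝ)) = c := by exact_mod_cast h3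
  rw [h4, hc]
  push_cast
  field_simp

/-- `φ(n) ≤ e φ(n / e)` -/
theorem tot_ge (n e : ℕ) (hn : 0 < n) (he : e ∣ n) : n.totient ≤ e * (n / e).totient := by
  have h1 : ∀ e : ℕ, ∀ m : ℕ, (e * m).totient ≤ e * m.totient := by
    intro e
    induction e using Nat.recOnMul with
    | zero => simp
    | one => simp
    | prime p hp =>
      intro m
      by_cases h : p ∣ m
      · rw [Nat.totient_mul_of_prime_of_dvd hp h]
      · rw [Nat.totient_mul_of_prime_of_not_dvd hp h]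
        exact Nat.mul_le_mul_right _ (Nat.sub_le p 1)
    | mul a b iha ihb =>
      intro m
      calc (a * b * m).totient = (a * (b * m)).totient := by rw [mul_assoc]
        _ ≤ a * (b * m).totient := iha _
        _ ≤ a * (b * m.totient) := Nat.mul_le_mul_left a (ihb m)
        _ = a * b * m.totient := by ring
  obtain ⟨c, hc⟩ := he
  have he0 : 0 < e := Nat.pos_of_ne_zero fun h0 => by
    subst h0
    omega
  rw [hc, Nat.mul_div_cancel_left c he0]
  exact h1 e c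

end Pool.Agent.H63.JL
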