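import Mathlib

/-!
# Pairs of primes
-/

set_option autoImplicit false

namespace Pool.Agent.H63.JL

open Finset

/-- the pairs `p < q ≤ K` of primes with `p q > L` -/
def prs (K L : ℕ) : Finset (ℕ × ℕ) :=
  ((Nat.primesLE K) ×ˢ (Nat.primesLE K)).filter fun x => x.1 < x.2 ∧ L < x.1 * x.2

theorem mem_prs {K L : ℕ} {x : ℕ × ℕ} (hx : x ∈ prs K L) :
    x.1.Prime ∧ x.2.Prime ∧ x.1 ≤ K ∧ x.2 ≤ K ∧ x.1 < x.2 ∧ L < x.1 * x.2 := by
  unfold prs at hx
  rw [mem_filter, mem_product, Nat.mem_primesLE, Nat.mem_primesLE] at hx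
  exact ⟨hx.1.1.2, hx.1.2.2, hx.1.1.1, hx.1.2.1, hx.2.1, hx.2.2⟩

/-- the product determines the pair -/
theorem prs_inj {x y : ℕ × ℕ} (hx1 : x.1.Prime) (hx : x.1 < x.2)
    (hy1 : y.1.Prime) (hy2 : y.2.Prime) (hy : y.1 < y.2) (h : x.1 * x.2 = y.1 * y.2) : x = y := by
  have h1 : x.1 ∣ y.1 * y.2 := ⟨x.2, h.symm⟩
  rcases (hx1.dvd_mul).1 h1 with h2 | h2
  · have h3 := (Nat.prime_dvd_prime_iff_eq hx1 hy1).1 h2
    rw [h3] at h
    have h4 := Nat.eq_of_mul_eq_mul_left hy1.pos h
    exact Prod.ext h3 h4
  · have h3 := (Nat.prime_dvd_prime_iff_eq hx1 hy2).1 h2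
    rw [h3, mul_comm y.1 y.2] at h
    have h4 := Nat.eq_of_mul_eq_mul_left hy2.pos h
    omega

theorem prs_card (K L : ℕ) :
    Nat.primeCounting K * (Nat.primeCounting K - 1) ≤ 2 * ((prs K L).card + L) := by
  set s := Nat.primesLE K with hs
  have hc : s.card = Nat.primeCounting K := Nat.primesLE_card_eq_primeCounting K
  set U := (s ×ˢ s).filter (fun x : ℕ × ℕ => x.1 < x.2) with hU
  have h1 : U.card ≤ (prs K L).card + L := by
    have h2 : U = prs K L ∪ U.filter (fun x => x.1 * x.2 ≤ L) := by
      ext x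
      unfold prs
      simp only [hU, mem_union, mem_filter]
      constructor
      · intro h
        by_cases h3 : x.1 * x.2 ≤ L
        · exact Or.inr ⟨h, h3⟩
        · exact Or.inl ⟨h.1, h.2, not_le.1 h3⟩
      · rintro (h | h)
        · exact ⟨h.1, h.2.1⟩
        · exact h.1
    rw [h2]
    refine (card_union_le _ _).trans (Nat.add_le_add_left ?_ _)
    have h3 : (U.filter (fun x => x.1 * x.2 ≤ L)).card ≤ (Icc 1 L).card := by
      refine card_le_card_of_injOn (fun x => x.1 * x.2) ?_ ?_
      · intro x hx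
        rw [mem_coe, mem_filter, hU, mem_filter, mem_product, hs, Nat.mem_primesLE,
          Nat.mem_primesLE] at hx
        rw [mem_coe, mem_Icc]
        exact ⟨Nat.mul_pos hx.1.1.1.2.pos hx.1.1.2.2.pos, hx.2⟩
      · intro x hx y hy hxy
        rw [mem_coe, mem_filter, hU, mem_filter, mem_product, hs, Nat.mem_primesLE,
          Nat.mem_primesLE] at hx hy
        exact prs_inj hx.1.1.1.2 hx.1.2 hy.1.1.1.2 hy.1.1.2.2 hy.1.2 hxy
    simpa using h3
  have h2 : s.card * s.card = s.card + 2 * U.card := by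
    have h3 : s ×ˢ s = (s ×ˢ s).filter (fun x : ℕ × ℕ => x.1 = x.2) ∪
        (U ∪ (s ×ˢ s).filter (fun x : ℕ × ℕ => x.2 < x.1)) := by
      ext x
      rw [mem_union, mem_union, hU, mem_filter, mem_filter, mem_filter]
      constructor
      · intro h
        rcases lt_trichotomy x.1 x.2 with h' | h' | h'
        · exact Or.inr (Or.inl ⟨h, h'⟩)
        · exact Or.inl ⟨h, h'⟩
        · exact Or.inr (Or.inr ⟨h, h'⟩)
      · rintro (h | h | h) <;> exact h.1
    have h4 : ((s ×ˢ s).filter (fun x : ℕ × ℕ => x.1 = x.2)).card = s.card := by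
      refine card_bij' (fun x _ => x.1) (fun a _ => (a, a)) ?_ ?_ ?_ ?_
      · intro x hx
        rw [mem_filter, mem_product] at hx
        exact hx.1.1
      · intro a ha
        rw [mem_filter, mem_product]
        exact ⟨⟨ha, ha⟩, rfl⟩
      · intro x hx
        rw [mem_filter] at hx
        exact Prod.ext rfl hx.2
      · intro a _
        rfl
    have h5 : ((s ×ˢ s).filter (fun x : ℕ × ℕ => x.2 < x.1)).card = U.card := by
      refine card_bij' (fun x _ => x.swap) (fun x _ => x.swap) ?_ ?_ ?_ ?_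
      · intro x hx
        rw [mem_filter, mem_product] at hx
        rw [hU, mem_filter, mem_product]
        exact ⟨⟨hx.1.2, hx.1.1⟩, hx.2⟩
      · intro x hx
        rw [hU, mem_filter, mem_product] at hx
        rw [mem_filter, mem_product]
        exact ⟨⟨hx.1.2, hx.1.1⟩, hx.2⟩
      · intro x _
        exact Prod.swap_swap x
      · intro x _
        exact Prod.swap_swap x
    have h6 : (s ×ˢ s).card = s.card * s.card := card_product s s
    rw [← h6]
    conv_lhs => rw [h3]
    rw [card_union_of_disjoint, card_union_of_disjoint, h4, h5]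
    · ring
    · rw [disjoint_left]
      intro x hx hx'
      rw [hU, mem_filter] at hx
      rw [mem_filter] at hx'
      have := hx.2
      have := hx'.2
      omega
    · rw [disjoint_left]
      intro x hx hx'
      rw [mem_filter] at hx
      rw [mem_union, hU, mem_filter, mem_filter] at hx'
      have := hx.2
      rcases hx' with h | h
      · have := h.2
        omega
      · have := h.2
        omega
  rw [hc] at h2
  have h3 : Nat.primeCounting K * (Nat.primeCounting K - 1) =
      Nat.primeCounting K * Nat.primeCounting K - Nat.primeCounting K := by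
    rw [Nat.mul_sub, mul_one]
  rw [h3, h2]
  omega

end Pool.Agent.H63.JL
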