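import Pool.Agent.H63.JL.Adv
import Pool.Agent.H63.JL.Mob
import Pool.Agent.H63.JL.Prs

/-!
# The measure

A measure `P` on the divisors of `n` with `P(1) = 0`, `P(d ∣ e) = 1 / d` exactly for `d ≤ L` and almost
`1 / d` for `d > L`.
-/

set_option autoImplicit false

namespace Pool.Agent.H63.JL

open Finset ArithmeticFunction

private lemma msr_sqrt (M : ℕ) : ∑ l ∈ Icc 1 M, 1 / √(l : ℝ) ≤ 2 * √(M : ℝ) := by
  induction M with
  | zero => simp
  | succ M ih =>
    rw [Finset.sum_Icc_succ_top (by omega)]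
    have h0 : (0 : ℝ) ≤ M := Nat.cast_nonneg M
    have h1 : 0 < √((M : ℝ) + 1) := Real.sqrt_pos.2 (by positivity)
    have h2 : 0 ≤ √(M : ℝ) := Real.sqrt_nonneg _
    have h3 : √((M : ℝ) + 1) * √((M : ℝ) + 1) = M + 1 := Real.mul_self_sqrt (by positivity)
    have h4 : √(M : ℝ) * √(M : ℝ) = M := Real.mul_self_sqrt h0
    push_cast
    have h5 : 1 / √((M : ℝ) + 1) ≤ 2 * √((M : ℝ) + 1) - 2 * √(M : ℝ) := by
      rw [div_le_iff₀ h1]
      nlinarith [sq_nonneg (√((M : ℝ) + 1) - √(M : ℝ))]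
    linarith

/-- the error constant -/
noncomputable def rho (N L : ℕ) : ℝ := L * (Real.log N + 4) + 4 * √((N : ℝ) * L)

theorem RR_bound (n N L e : ℕ) (hN : 0 < N) (he : 0 < e) :
    |RR n L (fun d => AS N d - TB N 1 / d) e| ≤ rho N L / e := by
  have he' : (0 : ℝ) < e := by exact_mod_cast he
  have hN' : (1 : ℝ) ≤ N := by exact_mod_cast hN
  have hlog : 0 ≤ Real.log N := Real.log_nonneg hN'
  refine (RR_le n L _ (fun d => Real.log N + 4 + 2 * √((N : ℝ) / d)) e he
    fun d hd => adv_sum N d hN hd).trans ?_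
  have h1 : ∀ l ∈ Icc 1 (L / e), Real.log N + 4 + 2 * √((N : ℝ) / ((e * l : ℕ) : ℝ)) =
      (Real.log N + 4) + 2 * √((N : ℝ) / e) * (1 / √(l : ℝ)) := by
    intro l hl
    rw [mem_Icc] at hl
    have hl' : (0 : ℝ) < l := by exact_mod_cast hl.1
    have h2 : (N : ℝ) / ((e * l : ℕ) : ℝ) = ((N : ℝ) / e) / l := by
      push_cast
      rw [div_div]
    rw [h2, Real.sqrt_div (by positivity)]
    ring
  rw [sum_congr rfl h1, sum_add_distrib, sum_const, Nat.card_Icc, nsmul_eq_mul, ← mul_sum,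
    Nat.add_sub_cancel]
  have hM : ((L / e : ℕ) : ℝ) ≤ (L : ℝ) / e := Nat.cast_div_le
  have h2 := msr_sqrt (L / e)
  have h3 : √((L / e : ℕ) : ℝ) ≤ √((L : ℝ) / e) := Real.sqrt_le_sqrt hM
  have h4 : 2 * √((N : ℝ) / e) * ∑ l ∈ Icc 1 (L / e), 1 / √(l : ℝ) ≤
      2 * √((N : ℝ) / e) * (2 * √((L : ℝ) / e)) :=
    mul_le_mul_of_nonneg_left (h2.trans (by linarith)) (by positivity)
  have h5 : √((N : ℝ) / e) * √((L : ℝ) / e) = √((N : ℝ) * L) / e := by
    rw [← Real.sqrt_mul (by positivity)]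
    have : (N : ℝ) / e * ((L : ℝ) / e) = (N : ℝ) * L / (e ^ 2) := by
      field_simp
    rw [this, Real.sqrt_div (by positivity), Real.sqrt_sq he'.le]
  have h6 : ((L / e : ℕ) : ℝ) * (Real.log N + 4) ≤ (L : ℝ) / e * (Real.log N + 4) :=
    mul_le_mul_of_nonneg_right hM (by linarith)
  have h7 : rho N L / e = (L : ℝ) / e * (Real.log N + 4) + 4 * (√((N : ℝ) * L) / e) := by
    unfold rho
    ring
  rw [h7, ← h5]
  linarith

/-- the set of the products -/
def PQ (K L : ℕ) : Finset ℕ := (prs K L).image fun x => x.1 * x.2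

private lemma prs_injOn (K L : ℕ) : Set.InjOn (fun x : ℕ × ℕ => x.1 * x.2) (prs K L) := by
  intro x hx y hy h
  have h1 := mem_prs (mem_coe.1 hx)
  have h2 := mem_prs (mem_coe.1 hy)
  exact prs_inj h1.1 h1.2.2.2.2.1 h2.1 h2.2.1 h2.2.2.2.2.1 h

private lemma pq_div {z n : ℕ} (hz : 0 < z) (hp : ∀ p : ℕ, p.Prime → p < z → p ∣ n) {L : ℕ}
    {x : ℕ × ℕ} (hx : x ∈ prs (z / 2) L) : x.1 ∣ n ∧ x.2 ∣ n ∧ x.1 * x.2 ∣ n ∧
      4 * (x.1 * x.2) ≤ z ^ 2 := by
  obtain ⟨h1, h2, h3, h4, h5, _⟩ := mem_prs hx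
  have a1 := hp _ h1 (by omega)
  have a2 := hp _ h2 (by omega)
  refine ⟨a1, a2, ?_, ?_⟩
  · exact ((Nat.coprime_primes h1 h2).2 h5.ne).mul_dvd_of_dvd_of_dvd a1 a2
  · have b1 : 2 * x.1 ≤ z := by omega
    have b2 : 2 * x.2 ≤ z := by omega
    calc 4 * (x.1 * x.2) = (2 * x.1) * (2 * x.2) := by ring
      _ ≤ z * z := Nat.mul_le_mul b1 b2
      _ = z ^ 2 := by ring

private lemma th_pq (f : ℕ → ℝ) {p q : ℕ} (hp : p.Prime) (hq : q.Prime) (hpq : p < q) :
    ∑ d ∈ (p * q).divisors, f d = f 1 + f p + f q + f (p * q) := by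
  have h1 : (p * q).divisors = {1, p, q, p * q} := by
    ext d
    rw [Nat.mem_divisors, mem_insert, mem_insert, mem_insert, mem_singleton]
    constructor
    · rintro ⟨h, _⟩
      rw [Nat.dvd_mul] at h
      obtain ⟨a, b, ha, hb, rfl⟩ := h
      rcases (Nat.dvd_prime hp).1 ha with rfl | rfl <;> rcases (Nat.dvd_prime hq).1 hb with rfl | rfl
      · simp
      · simp
      · simp
      · simp
    · have h0 : p * q ≠ 0 := (Nat.mul_pos hp.pos hq.pos).ne'
      rintro (rfl | rfl | rfl | rfl)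
      · exact ⟨one_dvd _, h0⟩
      · exact ⟨dvd_mul_right _ _, h0⟩
      · exact ⟨dvd_mul_left _ _, h0⟩
      · exact ⟨dvd_rfl, h0⟩
  have p1 := hp.one_lt
  have q1 := hq.one_lt
  have n1 : (1 : ℕ) ∉ ({p, q, p * q} : Finset ℕ) := by
    rw [mem_insert, mem_insert, mem_singleton]
    rintro (h | h | h)
    · omega
    · omega
    · nlinarith
  have n2 : p ∉ ({q, p * q} : Finset ℕ) := by
    rw [mem_insert, mem_singleton]
    rintro (h | h)
    · omega
    · nlinarith
  have n3 : q ∉ ({p * q} : Finset ℕ) := by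
    rw [mem_singleton]
    intro h
    nlinarith
  rw [h1, sum_insert n1, sum_insert n2, sum_insert n3, sum_singleton]
  ring

/-- the functional of the adversary -/
private lemma F1 (z n : ℕ) (f : ℕ → ℝ) (hn : 0 < n) :
    ∑ d ∈ n.divisors, AS (z ^ 2) d * f d =
      ∑ j ∈ Icc 1 (z ^ 2), adv (z ^ 2) j * ∑ d ∈ (Nat.gcd j n).divisors, f d := by
  have h3 : ∀ d ∈ n.divisors, AS (z ^ 2) d * f d =
      ∑ j ∈ Icc 1 (z ^ 2), if d ∣ j then adv (z ^ 2) j * f d else 0 := by
    intro d _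
    unfold AS
    rw [sum_mul, sum_filter]
  rw [sum_congr rfl h3, sum_comm]
  refine sum_congr rfl fun j hj => ?_
  rw [mem_Icc] at hj
  rw [← sum_filter, mul_sum]
  refine sum_congr ?_ fun _ _ => rfl
  ext d
  rw [mem_filter, Nat.mem_divisors, Nat.mem_divisors]
  constructor
  · rintro ⟨⟨a1, _⟩, a2⟩
    exact ⟨Nat.dvd_gcd a2 a1, (Nat.gcd_pos_of_pos_right _ hn).ne'⟩
  · rintro ⟨a1, _⟩
    exact ⟨⟨a1.trans (Nat.gcd_dvd_right _ _), hn.ne'⟩, a1.trans (Nat.gcd_dvd_left _ _)⟩

/-- the functional of the pairs -/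
private lemma F2 (z n L : ℕ) (f : ℕ → ℝ) (hz : 0 < z) (hn : 0 < n)
    (hp : ∀ p : ℕ, p.Prime → p < z → p ∣ n) :
    ∑ d ∈ n.divisors, (if d ∈ PQ (z / 2) L then 1 else 0) * f d =
      ∑ x ∈ prs (z / 2) L, (∑ d ∈ (x.1 * x.2).divisors, f d - ∑ d ∈ x.1.divisors, f d -
        ∑ d ∈ x.2.divisors, f d + f 1) := by
  have h1 : ∀ d ∈ n.divisors, (if d ∈ PQ (z / 2) L then (1 : ℝ) else 0) * f d =
      if d ∈ PQ (z / 2) L then f d else 0 := by
    intro d _
    split_ifs <;> ring
  rw [sum_congr rfl h1, ← sum_filter]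
  have h2 : n.divisors.filter (fun d => d ∈ PQ (z / 2) L) = PQ (z / 2) L := by
    ext d
    rw [mem_filter, Nat.mem_divisors]
    constructor
    · rintro ⟨_, h⟩
      exact h
    · intro h
      have h' := h
      unfold PQ at h'
      rw [mem_image] at h'
      obtain ⟨x, hx, rfl⟩ := h'
      exact ⟨⟨(pq_div hz hp hx).2.2.1, hn.ne'⟩, h⟩
  rw [h2]
  unfold PQ
  rw [sum_image (prs_injOn _ _)]
  refine sum_congr rfl fun x hx => ?_
  obtain ⟨a1, a2, _, _, a5, _⟩ := mem_prs hx
  rw [th_pq f a1 a2 a5, a1.sum_divisors, a2.sum_divisors]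
  ring

/-- the measure -/
theorem msr (z n L : ℕ) (hz : 3 ≤ z) (hn : 0 < n) (hL : 0 < L) (hp : ∀ p : ℕ, p.Prime → p < z → p ∣ n)
    (hc : 2 * rho (z ^ 2) L ≤ (prs (z / 2) L).card) :
    ∃ t : ℕ → ℝ, (∀ d ∈ n.divisors, d ≤ L → t d = 1 / d) ∧
      (∀ d ∈ n.divisors, L < d → 0 ≤ t d ∧ t d ≤ 5 / d ∧ |t d - 1 / d| ≤
        (Real.log ((z ^ 2 : ℕ) : ℝ) + 5 + 2 * √(((z ^ 2 : ℕ) : ℝ) / L)) / TB (z ^ 2) 1) ∧
      ∀ f : ℕ → ℝ, (∀ e ∈ n.divisors, ∑ d ∈ e.divisors, f d ≤ if e = 1 then 1 else 0) →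
        ∑ d ∈ n.divisors, t d * f d ≤ 0 := by
  set N := z ^ 2 with hN
  have hN9 : 9 ≤ N := by
    rw [hN]
    nlinarith
  have hN0 : 0 < N := by omega
  have hNr : (9 : ℝ) ≤ N := by exact_mod_cast hN9
  set T := TB N 1 with hT
  have hTge := tb_ge N hN0
  rw [← hT] at hTge
  have hT0 : 0 < T := by linarith
  set r : ℕ → ℝ := fun d => AS N d - T / d with hr
  set P := ((prs (z / 2) L).card : ℝ) with hP
  set R := RR n L r with hR
  have hRb : ∀ e, 0 < e → |R e| ≤ rho N L / e := fun e he => RR_bound n N L e hN0 he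
  have hrho0 : 0 ≤ rho N L := by
    unfold rho
    have : 0 ≤ Real.log N := Real.log_nonneg (by linarith)
    positivity
  set σ := P + R 1 with hσ
  have hR1 := hRb 1 one_pos
  rw [Nat.cast_one, div_one] at hR1
  have hσge : rho N L ≤ σ := by
    have := (abs_le.1 hR1).1
    linarith
  have hφ : 0 < n.totient := Nat.totient_pos.2 hn
  have hφ' : (0 : ℝ) < n.totient := by exact_mod_cast hφ
  have hn' : (0 : ℝ) < n := by exact_mod_cast hn
  set S := σ * n / n.totient with hS
  have hS0 : 0 ≤ S := by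
    rw [hS]
    have : 0 ≤ σ := hrho0.trans hσge
    positivity
  have hTS : 0 < T + S := by linarith
  set t : ℕ → ℝ := fun d => (AS N d - (if d ∈ PQ (z / 2) L then 1 else 0) -
    (if d ≤ L then r d else 0) + S / d) / (T + S) with ht
  refine ⟨t, ?_, ?_, ?_⟩
  · intro d hd hdL
    have hd0 : (0 : ℝ) < d := by exact_mod_cast Nat.pos_of_mem_divisors hd
    have h1 : d ∉ PQ (z / 2) L := by
      intro h
      unfold PQ at h
      rw [mem_image] at h
      obtain ⟨x, hx, rfl⟩ := h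
      have := (mem_prs hx).2.2.2.2.2
      omega
    simp only [ht, if_neg h1, if_pos hdL, hr]
    field_simp
    ring
  · intro d hd hdL
    have hdp := Nat.pos_of_mem_divisors hd
    have hd0 : (0 : ℝ) < d := by exact_mod_cast hdp
    have hL' : ¬ d ≤ L := by omega
    have ht' : t d = (AS N d - (if d ∈ PQ (z / 2) L then 1 else 0) + S / d) / (T + S) := by
      simp only [ht, if_neg hL', sub_zero]
    have hi0 : (0 : ℝ) ≤ if d ∈ PQ (z / 2) L then 1 else 0 := by
      split_ifs <;> norm_num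
    have hi1 : (if d ∈ PQ (z / 2) L then (1 : ℝ) else 0) ≤ 1 := by
      split_ifs <;> norm_num
    have hA : (if d ∈ PQ (z / 2) L then (1 : ℝ) else 0) ≤ AS N d := by
      split_ifs with h
      · unfold PQ at h
        rw [mem_image] at h
        obtain ⟨x, hx, rfl⟩ := h
        obtain ⟨a1, a2, _, _, _, _⟩ := mem_prs hx
        have h2 := (pq_div (by omega) hp hx).2.2.2
        have h3 := adv_pq N x.1 x.2 hN0 a1 a2 h2
        refine h3.trans ?_
        unfold AS
        refine single_le_sum (f := fun j => adv N j) (fun j _ => adv_nonneg N j) ?_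
        rw [mem_filter, mem_Icc]
        refine ⟨⟨hdp, ?_⟩, dvd_rfl⟩
        show x.1 * x.2 ≤ N
        rw [← hN] at h2
        omega
      · exact AS_nonneg N d
    have hSd : 0 ≤ S / d := div_nonneg hS0 hd0.le
    refine ⟨?_, ?_, ?_⟩
    · rw [ht']
      refine div_nonneg ?_ hTS.le
      linarith
    · rw [ht', div_le_div_iff₀ hTS hd0]
      have h1 := AS_le N d hdp
      have h2 : AS N d * d ≤ 2 * N := by
        rwa [le_div_iff₀ hd0] at h1
      have h3 : S / d * d = S := by field_simp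
      have h4 : 0 ≤ (if d ∈ PQ (z / 2) L then (1 : ℝ) else 0) * d := by positivity
      nlinarith
    · have h1 : t d - 1 / d = (r d - (if d ∈ PQ (z / 2) L then 1 else 0)) / (T + S) := by
        rw [ht']
        simp only [hr]
        field_simp
        ring
      rw [h1, abs_div, abs_of_pos hTS]
      have h2 : |r d - (if d ∈ PQ (z / 2) L then (1 : ℝ) else 0)| ≤
          Real.log N + 5 + 2 * √((N : ℝ) / L) := by
        have h3 := adv_sum N d hN0 hdp
        have h4 : √((N : ℝ) / d) ≤ √((N : ℝ) / L) := by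
          refine Real.sqrt_le_sqrt ?_
          have hLr : (0 : ℝ) < L := by exact_mod_cast hL
          have : (L : ℝ) ≤ d := by exact_mod_cast hdL.le
          exact div_le_div_of_nonneg_left (by linarith) hLr this
        have h5 := abs_sub (r d) (if d ∈ PQ (z / 2) L then (1 : ℝ) else 0)
        have h6 : |(if d ∈ PQ (z / 2) L then (1 : ℝ) else 0)| ≤ 1 := by
          rw [abs_of_nonneg hi0]
          exact hi1
        have h7 : |r d| ≤ Real.log N + 4 + 2 * √((N : ℝ) / d) := h3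
        linarith
      refine (div_le_div_of_nonneg_right h2 hTS.le).trans ?_
      have h8 : 0 ≤ Real.log (N : ℝ) := Real.log_nonneg (by linarith)
      exact div_le_div_of_nonneg_left (by positivity) hT0 (by linarith)
  · intro f hf
    have hθ : ∀ e ∈ n.divisors, e ≠ 1 → ∑ d ∈ e.divisors, f d ≤ 0 := by
      intro e he h1
      have := hf e he
      rwa [if_neg h1] at this
    have h1n : 1 ∈ n.divisors := Nat.one_mem_divisors.2 hn.ne'
    -- the value of the functional
    have hv : (T + S) * ∑ d ∈ n.divisors, t d * f d =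
        ∑ d ∈ n.divisors, AS N d * f d -
        ∑ d ∈ n.divisors, (if d ∈ PQ (z / 2) L then 1 else 0) * f d -
        ∑ g ∈ n.divisors.filter (fun g => g ≤ L), r g * f g +
        σ / n.totient * ∑ d ∈ n.divisors, (n : ℝ) / d * f d := by
      rw [sum_filter, mul_sum, mul_sum, ← sum_sub_distrib, ← sum_sub_distrib, ← sum_add_distrib]
      refine sum_congr rfl fun d hd => ?_
      have hd0 : (0 : ℝ) < d := by exact_mod_cast Nat.pos_of_mem_divisors hd
      have h2 : (T + S) * (t d * f d) = ((AS N d - (if d ∈ PQ (z / 2) L then 1 else 0) -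
          (if d ≤ L then r d else 0) + S / d)) * f d := by
        have hte : t d = (AS N d - (if d ∈ PQ (z / 2) L then 1 else 0) -
          (if d ≤ L then r d else 0) + S / d) / (T + S) := rfl
        rw [hte, ← mul_assoc, mul_div_cancel₀ _ hTS.ne']
      rw [h2, hS]
      split_ifs <;> ring
    have e1 := F1 z n f hn
    have e2 := F2 z n L f (by omega) hn hp
    have e3 := RR_sum n L r f hn
    have e4 := tot_sum n f hn
    rw [← hN] at e1
    -- the pairs
    have k1 : ∑ j ∈ Icc 1 N, adv N j * ∑ d ∈ (Nat.gcd j n).divisors, f d ≤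
        ∑ x ∈ prs (z / 2) L, ∑ d ∈ (x.1 * x.2).divisors, f d := by
      have b1 : ∀ j ∈ Icc 1 N, adv N j * ∑ d ∈ (Nat.gcd j n).divisors, f d ≤ 0 := by
        intro j hj
        by_cases hg : Nat.gcd j n = 1
        · rw [hN] at hj ⊢
          rw [adv_zero z n j (by omega) hp hj hg, zero_mul]
        · refine mul_nonpos_of_nonneg_of_nonpos (adv_nonneg N j) ?_
          exact hθ _ (Nat.mem_divisors.2 ⟨Nat.gcd_dvd_right _ _, hn.ne'⟩) hg
      have b2 : PQ (z / 2) L ⊆ Icc 1 N := by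
        intro j hj
        unfold PQ at hj
        rw [mem_image] at hj
        obtain ⟨x, hx, rfl⟩ := hj
        obtain ⟨a1, a2, _, _, _, _⟩ := mem_prs hx
        have h2 := (pq_div (by omega) hp hx).2.2.2
        rw [← hN] at h2
        rw [mem_Icc]
        have := Nat.mul_pos a1.pos a2.pos
        exact ⟨this, by omega⟩
      have b3 : ∑ j ∈ Icc 1 N, adv N j * ∑ d ∈ (Nat.gcd j n).divisors, f d ≤
          ∑ j ∈ PQ (z / 2) L, adv N j * ∑ d ∈ (Nat.gcd j n).divisors, f d := by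
        rw [← sum_sdiff b2]
        have : ∑ j ∈ Icc 1 N \ PQ (z / 2) L, adv N j * ∑ d ∈ (Nat.gcd j n).divisors, f d ≤ 0 :=
          sum_nonpos fun j hj => b1 j (mem_sdiff.1 hj).1
        linarith
      refine b3.trans ?_
      unfold PQ
      rw [sum_image (prs_injOn _ _)]
      refine sum_le_sum fun x hx => ?_
      obtain ⟨a1, a2, _, _, a5, _⟩ := mem_prs hx
      obtain ⟨_, _, c3, c4⟩ := pq_div (by omega) hp hx
      have h3 := adv_pq N x.1 x.2 hN0 a1 a2 c4
      show adv N (x.1 * x.2) * ∑ d ∈ (Nat.gcd (x.1 * x.2) n).divisors, f d ≤ _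
      rw [Nat.gcd_eq_left c3]
      have h4 : x.1 * x.2 ≠ 1 := by
        have := a1.one_lt
        have := a2.one_lt
        nlinarith
      have h5 := hθ _ (Nat.mem_divisors.2 ⟨c3, hn.ne'⟩) h4
      nlinarith
    have k2 : ∑ x ∈ prs (z / 2) L, (∑ d ∈ (x.1 * x.2).divisors, f d) + P * f 1 ≤
        ∑ x ∈ prs (z / 2) L, (∑ d ∈ (x.1 * x.2).divisors, f d - ∑ d ∈ x.1.divisors, f d -
        ∑ d ∈ x.2.divisors, f d + f 1) := by
      have : P * f 1 = ∑ x ∈ prs (z / 2) L, f 1 := by
        rw [sum_const, nsmul_eq_mul]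
      rw [this, ← sum_add_distrib]
      refine sum_le_sum fun x hx => ?_
      obtain ⟨a1, a2, _, _, _, _⟩ := mem_prs hx
      obtain ⟨c1, c2, _, _⟩ := pq_div (by omega) hp hx
      have h1 := hθ _ (Nat.mem_divisors.2 ⟨c1, hn.ne'⟩) a1.one_lt.ne'
      have h2 := hθ _ (Nat.mem_divisors.2 ⟨c2, hn.ne'⟩) a2.one_lt.ne'
      linarith
    have k3 : σ / n.totient * ∑ e ∈ n.divisors, ((n / e).totient : ℝ) * ∑ d ∈ e.divisors, f d -
        ∑ e ∈ n.divisors, R e * ∑ d ∈ e.divisors, f d - P * f 1 ≤ 0 := by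
      rw [mul_sum, ← sum_sub_distrib, ← add_sum_erase _ _ h1n]
      have b1 : ∑ x ∈ n.divisors.erase 1, (σ / n.totient * (((n / x).totient : ℝ) *
          ∑ d ∈ x.divisors, f d) - R x * ∑ d ∈ x.divisors, f d) ≤ 0 := by
        refine sum_nonpos fun e he => ?_
        rw [mem_erase] at he
        have he0 := Nat.pos_of_mem_divisors he.2
        have he' : (0 : ℝ) < e := by exact_mod_cast he0
        have h5 := hθ e he.2 he.1
        have h6 := hRb e he0
        have h7 := tot_ge n e hn (Nat.dvd_of_mem_divisors he.2)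
        have h7' : (n.totient : ℝ) ≤ e * ((n / e).totient : ℝ) := by exact_mod_cast h7
        have h8 : rho N L / e ≤ σ / n.totient * ((n / e).totient : ℝ) := by
          rw [div_mul_eq_mul_div, div_le_div_iff₀ he' hφ']
          calc rho N L * n.totient ≤ σ * n.totient := mul_le_mul_of_nonneg_right hσge hφ'.le
            _ ≤ σ * (e * ((n / e).totient : ℝ)) :=
                mul_le_mul_of_nonneg_left h7' (hrho0.trans hσge)
            _ = σ * ((n / e).totient : ℝ) * e := by ring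
        have h9 : R e ≤ σ / n.totient * ((n / e).totient : ℝ) :=
          ((le_abs_self _).trans h6).trans h8
        have : σ / n.totient * (((n / e).totient : ℝ) * ∑ d ∈ e.divisors, f d) -
            R e * ∑ d ∈ e.divisors, f d =
            (σ / n.totient * ((n / e).totient : ℝ) - R e) * ∑ d ∈ e.divisors, f d := by ring
        rw [this]
        exact mul_nonpos_of_nonneg_of_nonpos (by linarith) h5
      have b2 : σ / n.totient * (((n / 1).totient : ℝ) * ∑ d ∈ Nat.divisors 1, f d) -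
          R 1 * ∑ d ∈ Nat.divisors 1, f d = P * f 1 := by
        rw [Nat.div_one, Nat.divisors_one, sum_singleton, hσ]
        field_simp
        ring
      rw [b2]
      linarith
    have hfin : (T + S) * ∑ d ∈ n.divisors, t d * f d ≤ 0 := by
      rw [hv, e1, e2, ← e3, ← e4]
      linarith
    by_contra hcon
    have := mul_pos hTS (not_le.1 hcon)
    linarith

end Pool.Agent.H63.JL
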