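import Pool.Agent.H63.JL.Msr
import Pool.Agent.H63.JL.Cls

/-!
# Lower bounds for the length of a certificate in terms of the sieving bound `z`
-/

set_option autoImplicit false

namespace Pool.Agent.H63.JL

open Finset

private lemma zv_pi (z : ℕ) (hz : 32 ≤ z) (hl : 1 ≤ Real.log z) :
    (z : ℝ) / Real.log z / 6 ≤ (Nat.primeCounting (z / 2) : ℝ) := by
  set K := z / 2 with hK
  have hK16 : 16 ≤ K := by omega
  have hKr : (16 : ℝ) ≤ K := by exact_mod_cast hK16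
  have hzr : (32 : ℝ) ≤ z := by exact_mod_cast hz
  have h1 := Chebyshev.pi_ge K
  refine le_trans ?_ h1
  have hlK : 0 < Real.log K := Real.log_pos (by linarith)
  have hKz : (K : ℝ) ≤ z := by exact_mod_cast Nat.div_le_self z 2
  have hlKz : Real.log K ≤ Real.log z := Real.log_le_log (by linarith) hKz
  have hKz2 : (z : ℝ) - 1 ≤ 2 * K := by
    have : z ≤ 2 * K + 1 := by omega
    have : (z : ℝ) ≤ 2 * K + 1 := by exact_mod_cast this
    linarith
  have hlog2 : 0.69 < Real.log 2 := by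
    have := Real.log_two_gt_d9
    linarith
  have hlog2' : Real.log 2 < 0.7 := by
    have := Real.log_two_lt_d9
    linarith
  have h2 : Real.log ((K : ℝ) + 1) ≤ ((K : ℝ) + 1) / 16 - 1 + 4 * Real.log 2 := by
    have a1 := Real.log_le_sub_one_of_pos (show 0 < ((K : ℝ) + 1) / 16 by positivity)
    rw [Real.log_div (by positivity) (by norm_num)] at a1
    have a2 : Real.log 16 = 4 * Real.log 2 := by
      have : (16 : ℝ) = 2 ^ 4 := by norm_num
      rw [this, Real.log_pow]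
      norm_num
    rw [a2] at a1
    linarith
  have h3 : (K : ℝ) / 2 ≤ K * Real.log 2 - Real.log ((K : ℝ) + 1) := by nlinarith
  have h4 : (z : ℝ) / Real.log z / 6 ≤ (K : ℝ) / 2 / Real.log z := by
    rw [div_div, mul_comm, ← div_div]
    refine div_le_div_of_nonneg_right ?_ (by linarith)
    linarith
  refine h4.trans ?_
  have h5 : (K : ℝ) / 2 / Real.log z ≤ (K : ℝ) / 2 / Real.log K :=
    div_le_div_of_nonneg_left (by positivity) hlK hlKz
  exact h5.trans (div_le_div_of_nonneg_right h3 hlK.le)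

/-- the condition of `msr` -/
theorem zv_cond (z L : ℕ) (hz : 32 ≤ z) (hl : 1 ≤ Real.log z) (hl12 : 12 * Real.log z ≤ z)
    (hL : (L : ℝ) ≤ 1 / 2 ^ 24 * (z ^ 2 / Real.log z ^ 4)) :
    2 * rho (z ^ 2) L ≤ (prs (z / 2) L).card := by
  have hpi := zv_pi z hz hl
  have hc := prs_card (z / 2) L
  have hzr : (32 : ℝ) ≤ z := by exact_mod_cast hz
  set ℓ := Real.log z with hℓ
  have hℓ0 : 0 < ℓ := by linarith
  set Y := (z : ℝ) / ℓ with hY
  have hY12 : 12 ≤ Y := by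
    rw [hY, le_div_iff₀ hℓ0]
    exact hl12
  set π := Nat.primeCounting (z / 2) with hπ
  have hπ2 : (2 : ℝ) ≤ π := by linarith
  have hπ2' : 2 ≤ π := by exact_mod_cast hπ2
  have hc' : (π : ℝ) * (π - 1) ≤ 2 * ((prs (z / 2) L).card + L) := by
    have : ((π * (π - 1) : ℕ) : ℝ) ≤ ((2 * ((prs (z / 2) L).card + L) : ℕ) : ℝ) := by
      exact_mod_cast hc
    push_cast [Nat.cast_sub (show 1 ≤ π by omega)] at this
    exact this
  have h1 : Y ^ 2 / 144 - L ≤ (prs (z / 2) L).card := by nlinarith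
  have hYY : Y ^ 2 = z ^ 2 / ℓ ^ 2 := by
    rw [hY, div_pow]
  have hL2 : (L : ℝ) ≤ 1 / 2 ^ 24 * (Y ^ 2 / ℓ ^ 2) := by
    refine hL.trans (le_of_eq ?_)
    rw [hYY]
    field_simp
  have hY0 : 0 < Y := by linarith
  have hL3 : (L : ℝ) * ℓ ≤ 1 / 2 ^ 24 * Y ^ 2 := by
    have a1 : (L : ℝ) * ℓ ≤ 1 / 2 ^ 24 * (Y ^ 2 / ℓ ^ 2) * ℓ :=
      mul_le_mul_of_nonneg_right hL2 hℓ0.le
    have a2 : 1 / 2 ^ 24 * (Y ^ 2 / ℓ ^ 2) * ℓ = 1 / 2 ^ 24 * (Y ^ 2 / ℓ) := by
      field_simp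
    have a3 : Y ^ 2 / ℓ ≤ Y ^ 2 := div_le_self (by positivity) hl
    rw [a2] at a1
    linarith
  have hL4 : (L : ℝ) ≤ 1 / 2 ^ 24 * Y ^ 2 := by
    have a1 : (0 : ℝ) ≤ L := Nat.cast_nonneg L
    nlinarith
  have hsq : √(((z ^ 2 : ℕ) : ℝ) * L) ≤ Y ^ 2 / 4096 := by
    refine Real.sqrt_le_iff.2 ⟨by positivity, ?_⟩
    push_cast
    have a1 : (z : ℝ) ^ 2 = Y ^ 2 * ℓ ^ 2 := by
      rw [hYY]
      field_simp
    rw [a1]
    calc Y ^ 2 * ℓ ^ 2 * (L : ℝ) ≤ Y ^ 2 * ℓ ^ 2 * (1 / 2 ^ 24 * (Y ^ 2 / ℓ ^ 2)) :=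
          mul_le_mul_of_nonneg_left hL2 (by positivity)
      _ = (Y ^ 2 / 4096) ^ 2 := by
          field_simp
          norm_num
  have hlog : Real.log ((z ^ 2 : ℕ) : ℝ) = 2 * ℓ := by
    push_cast
    rw [Real.log_pow]
    push_cast
    rfl
  unfold rho
  rw [hlog]
  have hf : 2 * ((L : ℝ) * (2 * ℓ + 4) + 4 * √(((z ^ 2 : ℕ) : ℝ) * L)) + L ≤ Y ^ 2 / 144 := by
    nlinarith
  linarith

/-- all moduli exact -/
theorem zv_two (z n X D : ℕ) (lam : ℕ → ℕ → ℝ) (B : ℕ → ℝ) (hz : 32 ≤ z)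
    (hl : 1 ≤ Real.log z) (hl12 : 12 * Real.log z ≤ z) (hn : 0 < n)
    (hp : ∀ p : ℕ, p.Prime → p < z → p ∣ n) (h : SieveCert n X D lam B) :
    1 / (5 * 2 ^ 24) * (z ^ 2 / Real.log z ^ 4) < (X : ℝ) := by
  by_contra hcon
  push Not at hcon
  have hX := cert_pos n X D lam B h
  have hXr : (1 : ℝ) ≤ X := by exact_mod_cast hX
  have hL : ((5 * X : ℕ) : ℝ) ≤ 1 / 2 ^ 24 * (z ^ 2 / Real.log z ^ 4) := by
    push_cast
    have : (1 : ℝ) / 2 ^ 24 * (z ^ 2 / Real.log z ^ 4) =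
        5 * (1 / (5 * 2 ^ 24) * (z ^ 2 / Real.log z ^ 4)) := by ring
    rw [this]
    linarith
  obtain ⟨t, h1, h2, h3⟩ := msr z n (5 * X) (by omega) hn (by omega) hp
    (zv_cond z (5 * X) hz hl hl12 hL)
  refine no_cert n X D lam B t ?_ h3 h
  intro d hd
  have hd0 := Nat.pos_of_mem_divisors hd
  have hd' : (1 : ℝ) ≤ d := by exact_mod_cast hd0
  rcases le_or_gt d (5 * X) with h4 | h4
  · refine ⟨fun _ => t d, adm_const X D d (t d) hd0 ?_ ?_ ?_ ?_, fun m _ => rfl⟩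
    · rw [h1 d hd h4]
      positivity
    · rw [h1 d hd h4, div_le_one (by linarith)]
      exact hd'
    · rw [h1 d hd h4]
      simp
    · intro _
      exact h1 d hd h4
  · obtain ⟨a1, a2, _⟩ := h2 d hd h4
    refine adm_big X D d (t d) hX (by omega) a1 ?_
    have h5 : (5 : ℝ) * X ≤ d := by
      have : ((5 * X : ℕ) : ℝ) ≤ d := by exact_mod_cast h4.le
      push_cast at this
      exact this
    calc (X : ℝ) * t d ≤ X * (5 / d) := mul_le_mul_of_nonneg_left a2 (by linarith)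
      _ = 5 * X / d := by ring
      _ ≤ 1 := by
        rw [div_le_one (by linarith)]
        exact h5

/-- the moduli above `D` not exact -/
theorem zv_one (z n X D : ℕ) (lam : ℕ → ℕ → ℝ) (B : ℕ → ℝ) (hz : 32 ≤ z)
    (hl : 1 ≤ Real.log z) (hl12 : 12 * Real.log z ≤ z)
    (hbig : 12 ≤ 1 / 2 ^ 24 * ((z : ℝ) ^ 2 / Real.log z ^ 4)) (hn : 0 < n)
    (hp : ∀ p : ℕ, p.Prime → p < z → p ∣ n) (h : SieveCert n X D lam B)
    (hD : (D : ℝ) ≤ 1 / 2 ^ 24 * (z ^ 2 / Real.log z ^ 4)) :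
    1 / 50000 * (z ^ 2 / Real.log z ^ 2) < (X : ℝ) := by
  by_contra hcon
  push Not at hcon
  have hX := cert_pos n X D lam B h
  have hXr : (1 : ℝ) ≤ X := by exact_mod_cast hX
  have hzr : (32 : ℝ) ≤ z := by exact_mod_cast hz
  set ℓ := Real.log z with hℓ
  have hℓ0 : 0 < ℓ := by linarith
  set V : ℝ := 1 / 2 ^ 24 * ((z : ℝ) ^ 2 / ℓ ^ 4) with hV
  set L := ⌊V⌋₊ with hLdef
  have hV0 : 0 ≤ V := by linarith
  have hL1 : (L : ℝ) ≤ V := Nat.floor_le hV0
  have hL2 : V < L + 1 := Nat.lt_floor_add_one V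
  have hL3 : V / 2 ≤ L := by linarith
  have hL5r : (5 : ℝ) ≤ L := by linarith
  have hL5 : 5 ≤ L := by exact_mod_cast hL5r
  have hDL : D ≤ L := Nat.le_floor hD
  obtain ⟨t, h1, h2, h3⟩ := msr z n L (by omega) hn (by omega) hp
    (zv_cond z L hz hl hl12 hL1)
  refine no_cert n X D lam B t ?_ h3 h
  intro d hd
  have hd0 := Nat.pos_of_mem_divisors hd
  have hd' : (1 : ℝ) ≤ d := by exact_mod_cast hd0
  refine ⟨fun _ => t d, ?_, fun m _ => rfl⟩
  rcases le_or_gt d L with h4 | h4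
  · refine adm_const X D d (t d) hd0 ?_ ?_ ?_ ?_
    · rw [h1 d hd h4]
      positivity
    · rw [h1 d hd h4, div_le_one (by linarith)]
      exact hd'
    · rw [h1 d hd h4]
      simp
    · intro _
      exact h1 d hd h4
  · obtain ⟨a1, a2, a3⟩ := h2 d hd h4
    refine adm_const X D d (t d) hd0 a1 ?_ ?_ ?_
    · refine a2.trans ?_
      rw [div_le_one (by linarith)]
      have : (L : ℝ) ≤ d := by exact_mod_cast h4.le
      linarith
    · have hlog : Real.log ((z ^ 2 : ℕ) : ℝ) = 2 * ℓ := by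
        push_cast
        rw [Real.log_pow]
        push_cast
        rfl
      have hT := tb_ge (z ^ 2) (by positivity)
      push_cast at hT
      have hT' : (z : ℝ) ^ 2 / 4 ≤ TB (z ^ 2) 1 := by
        have : (2 : ℝ) ≤ (z : ℝ) ^ 2 := by nlinarith
        linarith
      have hz0 : (0 : ℝ) < (z : ℝ) ^ 2 := by positivity
      have hs : √(((z ^ 2 : ℕ) : ℝ) / L) ≤ 6000 * ℓ ^ 2 := by
        refine Real.sqrt_le_iff.2 ⟨by positivity, ?_⟩
        push_cast
        rw [div_le_iff₀ (by linarith)]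
        have b1 : (6000 * ℓ ^ 2) ^ 2 * (V / 2) = 36000000 / 2 ^ 25 * (z : ℝ) ^ 2 := by
          rw [hV]
          field_simp
          norm_num
        have b2 : (6000 * ℓ ^ 2) ^ 2 * (V / 2) ≤ (6000 * ℓ ^ 2) ^ 2 * L :=
          mul_le_mul_of_nonneg_left hL3 (by positivity)
        have b3 : (z : ℝ) ^ 2 ≤ 36000000 / 2 ^ 25 * (z : ℝ) ^ 2 := by
          have : (1 : ℝ) ≤ 36000000 / 2 ^ 25 := by norm_num
          nlinarith
        linarith
      rw [hlog] at a3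
      have hE : 2 * ℓ + 5 + 2 * √(((z ^ 2 : ℕ) : ℝ) / L) ≤ 12007 * ℓ ^ 2 := by nlinarith
      have a4 : |t d - 1 / d| ≤ 12007 * ℓ ^ 2 / (z ^ 2 / 4) := by
        refine a3.trans ?_
        have c1 : (2 * ℓ + 5 + 2 * √(((z ^ 2 : ℕ) : ℝ) / L)) / TB (z ^ 2) 1 ≤
            (12007 * ℓ ^ 2) / TB (z ^ 2) 1 :=
          div_le_div_of_nonneg_right hE (by linarith)
        exact c1.trans (div_le_div_of_nonneg_left (by positivity) (by positivity) hT')
      calc (X : ℝ) * |t d - 1 / d| ≤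
          (1 / 50000 * ((z : ℝ) ^ 2 / ℓ ^ 2)) * (12007 * ℓ ^ 2 / (z ^ 2 / 4)) :=
            mul_le_mul hcon a4 (abs_nonneg _) (by positivity)
        _ = 48028 / 50000 := by
            field_simp
            norm_num
        _ ≤ 1 := by norm_num
    · intro hdD
      exfalso
      omega

end Pool.Agent.H63.JL
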